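import Pool.Agent.P.MP_dd457d_ag.Fil

/-! An additive function on ideals of a curve over a finite field, insensitive to terms of low
degree, is proportional to the degree up to torsion. -/

namespace Pool.Agent.P.MP_dd457d_ag

open Polynomial Module

variable {k : Type*} [Field k] {R : Type*} [CommRing R] [Algebra k R] [Algebra k[X] R]
  [IsScalarTower k k[X] R] {ι : Type*} [Fintype ι] [DecidableEq ι]

/-- Elements all of whose coordinates have degree at most `j`. -/
def VV (b : Basis ι k[X] R) (j : ℕ) : Submodule k R where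
  carrier := {r | ∀ i, (b.repr r i).natDegree ≤ j}
  add_mem' ha hb i := by
    rw [map_add, Finsupp.add_apply]
    exact natDegree_add_le_of_degree_le (ha i) (hb i)
  zero_mem' i := by simp
  smul_mem' c r hr i := by
    rw [← algebraMap_smul k[X], map_smul, Finsupp.smul_apply, algebraMap_smul]
    exact (natDegree_smul_le _ _).trans (hr i)

theorem mem_VV {b : Basis ι k[X] R} {j : ℕ} {r : R} :
    r ∈ VV b j ↔ ∀ i, (b.repr r i).natDegree ≤ j := Iff.rfl

theorem repr_X_mul (b : Basis ι k[X] R) (r : R) (i : ι) :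
    b.repr (algebraMap k[X] R X * r) i = X * b.repr r i := by
  rw [← Algebra.smul_def, map_smul, Finsupp.smul_apply, smul_eq_mul]

theorem fil_VV (b : Basis ι k[X] R) :
    Fil (LinearMap.mulLeft k (algebraMap k[X] R X)) (VV b) where
  mono j r hr i := (hr i).trans (Nat.le_succ j)
  exh r := ⟨Finset.univ.sup fun i => (b.repr r i).natDegree, fun i =>
    Finset.le_sup (f := fun i => (b.repr r i).natDegree) (Finset.mem_univ i)⟩
  mul j r hr i := by
    rw [LinearMap.mulLeft_apply, repr_X_mul]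
    have := hr i
    have h2 := natDegree_mul_le (p := (X : k[X])) (q := b.repr r i)
    rw [natDegree_X] at h2
    omega
  gen j r hr := by
    refine ⟨b.equivFun.symm fun i => (b.repr r i).divX, fun i => ?_, fun i => ?_⟩
    · have := hr i
      rw [← b.equivFun_apply, LinearEquiv.apply_symm_apply, natDegree_divX_eq_natDegree_tsub_one]
      omega
    · rw [LinearMap.mulLeft_apply, map_sub, Finsupp.sub_apply, repr_X_mul,
        ← b.equivFun_apply (b.equivFun.symm _), LinearEquiv.apply_symm_apply]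
      have : b.repr r i - X * (b.repr r i).divX = C ((b.repr r i).coeff 0) := by
        rw [sub_eq_iff_eq_add', X_mul_divX_add]
      rw [this, natDegree_C]
      exact Nat.zero_le _
  inj j r hr i := by
    have := hr i
    rw [LinearMap.mulLeft_apply, repr_X_mul] at this
    by_cases h0 : b.repr r i = 0
    · simp [h0]
    · rw [natDegree_X_mul h0] at this
      omega

/-- Parametrisation of `VV b j`. -/
noncomputable def Psi (b : Basis ι k[X] R) (j : ℕ) : (ι → degreeLT k (j + 1)) →ₗ[k] R :=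
  (b.equivFun.symm.toLinearMap.restrictScalars k).comp
    (LinearMap.pi fun i => (degreeLT k (j + 1)).subtype.comp (LinearMap.proj i))

theorem repr_Psi (b : Basis ι k[X] R) (j : ℕ) (f : ι → degreeLT k (j + 1)) (i : ι) :
    b.repr (Psi b j f) i = f i := by
  rw [← b.equivFun_apply]
  exact congrFun (b.equivFun.apply_symm_apply _) i

theorem range_Psi (b : Basis ι k[X] R) (j : ℕ) : LinearMap.range (Psi b j) = VV b j := by
  ext r
  constructor
  · rintro ⟨f, rfl⟩ i
    rw [repr_Psi]
    exact natDegree_le_iff_degree_le.2 (Order.le_of_lt_succ (mem_degreeLT.1 (f i).2))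
  · intro hr
    refine ⟨fun i => ⟨b.repr r i, mem_degreeLT.2 ?_⟩, b.ext_elem fun i => repr_Psi _ _ _ _⟩
    exact lt_of_le_of_lt (natDegree_le_iff_degree_le.1 (hr i)) (by exact_mod_cast j.lt_succ_self)

instance (n : ℕ) : Module.Finite k (degreeLT k n) := Module.Finite.of_basis (degreeLT.basis k n)

theorem fg_VV (b : Basis ι k[X] R) (j : ℕ) : (VV b j).FG := by
  rw [← range_Psi, LinearMap.range_eq_map]
  exact Submodule.FG.map _ Module.Finite.fg_top

theorem exists_mem_VV (b : Basis ι k[X] R) (I : Ideal R) [Module.Finite k (R ⧸ I)] (c : ℕ)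
    (h : finrank k (R ⧸ I) < Fintype.card ι * (c + 1)) : ∃ x ∈ I, x ∈ VV b c ∧ x ≠ 0 := by
  have := LinearMap.ker_ne_bot_of_finrank_lt
    (f := (Ideal.Quotient.mkₐ k I).toLinearMap.comp (Psi b c)) (by
      rw [finrank_pi_fintype, finrank_eq_card_basis (degreeLT.basis k (c + 1))]
      simpa using h)
  obtain ⟨f, hf, h0⟩ := (Submodule.ne_bot_iff _).1 this
  refine ⟨Psi b c f, Ideal.Quotient.eq_zero_iff_mem.1 hf, range_Psi b c ▸ ⟨f, rfl⟩, fun h => h0 ?_⟩
  ext1 i
  apply Subtype.ext
  rw [← repr_Psi b, h]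
  simp

theorem mul_VV (b : Basis ι k[X] R) :
    ∃ C, ∀ a, ∀ x ∈ VV b a, ∀ a', ∀ y ∈ VV b a', x * y ∈ VV b (a + (a' + C)) := by
  have hV := fil_VV b
  obtain ⟨s, hs⟩ := fg_VV b 0
  choose c hc using fun ω : R => hV.bdd_fg hV (LinearMap.mulLeft k ω)
    (fun y => by simp [mul_left_comm]) (fg_VV b 0)
  refine ⟨s.sup c, fun a x hx a' y hy => ?_⟩
  refine hV.bdd hV (LinearMap.mulRight k y) (fun r => by simp [mul_assoc]) ?_ a x hx
  rw [← hs]
  refine (Submodule.span_le (p := (VV b (a' + s.sup c)).comap (LinearMap.mulRight k y))).2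
    fun ω hω => ?_
  exact hV.le (Nat.add_le_add_left (Finset.le_sup hω) a') (hc ω a' y hy)

theorem natDegree_det_le (M : Matrix ι ι k[X]) (w : ι → ℕ) (h : ∀ i j, (M i j).natDegree ≤ w i) :
    M.det.natDegree ≤ ∑ i, w i := by
  rw [Matrix.det_apply]
  refine natDegree_sum_le_of_forall_le _ _ fun σ _ => ?_
  refine (natDegree_smul_le _ _).trans ((natDegree_prod_le _ _).trans ?_)
  rw [← Equiv.sum_comp σ w]
  exact Finset.sum_le_sum fun i _ => h _ _

theorem norm_VV [Nonempty ι] (b : Basis ι k[X] R) :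
    ∃ C, ∀ a, ∀ x ∈ VV b a, (Algebra.norm k[X] x).natDegree ≤ Fintype.card ι * a + C ∧
      ∃ e y, y ∈ VV b e ∧ e + a ≤ Fintype.card ι * a + C ∧
        x * y = algebraMap k[X] R (Algebra.norm k[X] x) := by
  classical
  obtain ⟨C, hC⟩ := mul_VV b
  obtain ⟨c, hc⟩ := (fil_VV b).finset_le (insert 1 (Finset.univ.image b))
  refine ⟨Fintype.card ι * (c + C) + c, fun a x hx => ?_⟩
  have hL : ∀ i j, (Algebra.leftMulMatrix b x i j).natDegree ≤ a + (c + C) := fun i j => by
    rw [Algebra.leftMulMatrix_eq_repr_mul]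
    exact hC a x hx c _ (hc _ (by simp)) i
  rw [Algebra.norm_eq_matrix_det b]
  refine ⟨(natDegree_det_le _ _ hL).trans ?_, (Fintype.card ι - 1) * (a + (c + C)) + c,
    b.equivFun.symm ((Algebra.leftMulMatrix b x).adjugate.mulVec (b.repr 1)), fun i => ?_, ?_, ?_⟩
  · simp only [Finset.sum_const, Finset.card_univ, smul_eq_mul, mul_add]
    omega
  · rw [← b.equivFun_apply, LinearEquiv.apply_symm_apply, Matrix.mulVec, dotProduct]
    refine natDegree_sum_le_of_forall_le _ _ fun j _ => natDegree_mul_le.trans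
      (add_le_add ?_ (hc 1 (by simp) j))
    rw [Matrix.adjugate_apply]
    refine (natDegree_det_le _ (Function.update (fun _ => a + (c + C)) j 0) fun i' j' => ?_).trans
      ?_
    · by_cases h : i' = j
      · subst h
        simp only [Matrix.updateRow_self, Function.update_self, Pi.single_apply]
        split_ifs <;> simp
      · simpa [Matrix.updateRow_ne h, Function.update_of_ne h] using hL i' j'
    · rw [Finset.sum_update_of_mem (Finset.mem_univ j)]
      simp [Finset.card_sdiff]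
  · obtain ⟨r, hr⟩ : ∃ r, Fintype.card ι = r + 1 := ⟨_, (Nat.succ_pred_eq_of_pos Fintype.card_pos).symm⟩
    rw [hr, Nat.add_sub_cancel]
    nlinarith
  · apply b.repr.injective
    ext i
    rw [← Algebra.leftMulMatrix_mulVec_repr, ← b.equivFun_apply (b.equivFun.symm _),
      LinearEquiv.apply_symm_apply, Matrix.mulVec_mulVec, Matrix.mul_adjugate,
      Algebra.algebraMap_eq_smul_one, map_smul]
    simp [Matrix.smul_mulVec]

section ideals

variable [IsDedekindDomain R]

open Ideal

omit [DecidableEq ι] in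
theorem finite_quot (b : Basis ι k[X] R) {I : Ideal R} (hI : I ≠ ⊥) : Module.Finite k (R ⧸ I) :=
  Module.Finite.equiv (Ideal.quotientEquivDirectSum k b hI).symm

omit [DecidableEq ι] in
theorem finrank_mul [Finite k] (b : Basis ι k[X] R) (I J : Ideal R) (hI : I ≠ ⊥) (hJ : J ≠ ⊥) :
    finrank k (R ⧸ (I * J)) = finrank k (R ⧸ I) + finrank k (R ⧸ J) := by
  have := Module.Free.of_basis b
  have : Infinite R := Module.Free.infinite k[X] R
  have h : Submodule.cardQuot (I * J) = Submodule.cardQuot I * Submodule.cardQuot J :=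
    UniqueFactorizationMonoid.multiplicative_of_coprime Submodule.cardQuot I J
      (Submodule.cardQuot_bot _ _)
      (fun {I J} hI => by simp [Ideal.isUnit_iff.mp hI, Ideal.mul_top])
      (fun {I} i hI =>
        have : Ideal.IsPrime I := Ideal.isPrime_of_prime hI
        cardQuot_pow_of_prime hI.ne_zero)
      fun {I J} hIJ => cardQuot_mul_of_coprime <| Ideal.isCoprime_iff_sup_eq.mpr
        (Ideal.isUnit_iff.mp
          (hIJ (Ideal.dvd_iff_le.mpr le_sup_left) (Ideal.dvd_iff_le.mpr le_sup_right)))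
  have := finite_quot b hI
  have := finite_quot b hJ
  have := finite_quot b (mul_ne_zero hI hJ)
  simp only [Submodule.cardQuot_apply] at h
  rw [natCard_eq_pow_finrank (K := k), natCard_eq_pow_finrank (K := k) (V := R ⧸ I),
    natCard_eq_pow_finrank (K := k) (V := R ⧸ J), ← pow_add] at h
  exact Nat.pow_right_injective Finite.one_lt_card h

theorem exists_dvd [Finite k] [Nonempty ι] (b : Basis ι k[X] R) (B : ℕ) :
    ∃ P : Ideal R, P ≠ ⊥ ∧ ∀ J, J ≠ ⊥ → finrank k (R ⧸ J) ≤ B → J ∣ P := by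
  classical
  have := Module.Finite.iff_fg.2 (fg_VV b B)
  have : Finite (VV b B) := Module.finite_of_finite k
  have hf : (VV b B : Set R).Finite := Set.toFinite _
  refine ⟨span {∏ x ∈ hf.toFinset.erase 0, x}, ?_, fun J hJ h => ?_⟩
  · rw [Ne, span_singleton_eq_bot]
    exact Finset.prod_ne_zero_iff.2 fun x hx => Finset.ne_of_mem_erase hx
  · have := finite_quot b hJ
    obtain ⟨x, hx, hV, h0⟩ := exists_mem_VV b J B (by
      have := Fintype.card_pos (α := ι)
      nlinarith)
    rw [dvd_span_singleton]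
    exact mem_of_dvd _ (Finset.dvd_prod_of_mem _
      (Finset.mem_erase.2 ⟨h0, hf.mem_toFinset.2 hV⟩)) hx

theorem map_pow_of_add {H : Type*} [AddCancelCommMonoid H] (ψ : Ideal R → H)
    (hadd : ∀ I J, I ≠ ⊥ → J ≠ ⊥ → ψ (I * J) = ψ I + ψ J) {p : Ideal R} (hp : p ≠ ⊥) (n : ℕ) :
    ψ (p ^ n) = n • ψ p := by
  induction n with
  | zero =>
    have := hadd ⊤ ⊤ top_ne_bot top_ne_bot
    rw [mul_top] at this
    simpa using this
  | succ n ih => rw [pow_succ, hadd _ _ (pow_ne_zero _ hp) hp, ih, succ_nsmul]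

variable {G : Type*} [AddCommGroup G] (φ : Ideal R → G)
  (hadd : ∀ I J, I ≠ ⊥ → J ≠ ⊥ → φ (I * J) = φ I + φ J) (b : Basis ι k[X] R) (D : ℕ)
  (hD : ∀ (p : k[X]) (a : ℕ) (δ : R), p.Monic → δ ∈ VV b a → a + D ≤ p.natDegree →
    algebraMap k[X] R p + δ ≠ 0 → algebraMap k[X] R p ≠ 0 →
    φ (span {algebraMap k[X] R p + δ}) = φ (span {algebraMap k[X] R p}))
include hadd hD

theorem same_top [Nonempty ι] : ∃ D', ∀ c x x', x ∈ VV b (c + D') → x ≠ 0 → x' ≠ 0 →
    x' - x ∈ VV b c → Fintype.card ι * (c + D') ≤ (Algebra.norm k[X] x).natDegree →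
    φ (span {x'}) = φ (span {x}) := by
  obtain ⟨C, hC⟩ := norm_VV b
  obtain ⟨C', hC'⟩ := mul_VV b
  refine ⟨C + C' + D, fun c x x' hx h0 h0' hxx hn => ?_⟩
  obtain ⟨-, e, y, hy, he, hxy⟩ := hC _ x hx
  have hg : Algebra.norm k[X] x ≠ 0 := (Algebra.norm_ne_zero_iff_of_basis b).2 h0
  set g := Algebra.norm k[X] x
  have e1 : algebraMap k[X] R (g * Polynomial.C g.leadingCoeff⁻¹) = x * (g.leadingCoeff⁻¹ • y) := by
    rw [map_mul, ← hxy, mul_smul_comm, Algebra.smul_def, mul_comm,
      IsScalarTower.algebraMap_apply k k[X] R]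
    rfl
  have hy0 : g.leadingCoeff⁻¹ • y ≠ 0 := by
    intro h
    have h2 : y = 0 := by simpa [hg] using h
    rw [h2, mul_zero] at hxy
    have := b.algebraMap_injective
    exact hg (this (by rw [← hxy, map_zero]))
  set y' := g.leadingCoeff⁻¹ • y
  have h1 := hD (g * Polynomial.C g.leadingCoeff⁻¹) _ (y' * (x' - x))
    (monic_mul_leadingCoeff_inv hg) (hC' _ _ (Submodule.smul_mem _ _ hy) _ _ hxx)
    (by rw [natDegree_mul_leadingCoeff_inv _ hg]; omega)
  have e2 : x * y' + y' * (x' - x) = x' * y' := by ring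
  rw [e1, e2] at h1
  have h2 := h1 (mul_ne_zero h0' hy0) (mul_ne_zero h0 hy0)
  rw [← span_singleton_mul_span_singleton, ← span_singleton_mul_span_singleton,
    hadd _ _ (by simpa using h0') (by simpa using hy0),
    hadd _ _ (by simpa using h0) (by simpa using hy0)] at h2
  exact add_right_cancel h2

theorem torsion_of_modulus [Finite k] {p q : Ideal R} (hp : p ≠ ⊥) (hq : q ≠ ⊥) (hp' : p ≠ ⊤)
    (hq' : q ≠ ⊤) :
    ∃ n : ℕ, 0 < n ∧ n • (finrank k (R ⧸ q) • φ p - finrank k (R ⧸ p) • φ q) = 0 := by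
  classical
  have : Nonempty ι := b.index_nonempty
  obtain ⟨D', hD'⟩ := same_top φ hadd b D hD
  obtain ⟨C, hC⟩ := norm_VV b
  obtain ⟨P, hP, hP'⟩ := exists_dvd b C
  have := Fintype.ofFinite k
  have := UniqueFactorizationMonoid.fintypeSubtypeDvd P hP
  have := finite_quot b hp
  have := finite_quot b hq
  have := Quotient.nontrivial_iff.2 hp'
  have := Quotient.nontrivial_iff.2 hq'
  have hdp : 0 < finrank k (R ⧸ p) := finrank_pos
  have hdq : 0 < finrank k (R ⧸ q) := finrank_pos
  set dp := finrank k (R ⧸ p) with hdp'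
  set dq := finrank k (R ⧸ q) with hdq'
  have hρ : 0 < Fintype.card ι := Fintype.card_pos
  set ρ := Fintype.card ι
  let K := Fintype.card ((ι → Fin D' → k) × {J // J ∣ P})
  let N := K + ρ * D'
  obtain ⟨c, hc⟩ : ∃ c, N * dp * dq / ρ = c + D' := by
    refine ⟨_, (Nat.sub_add_cancel ((Nat.le_div_iff_mul_le hρ).2 ?_)).symm⟩
    calc D' * ρ ≤ N * 1 * 1 := by simp [N, mul_comm]
      _ ≤ _ := by gcongr <;> omega
  have hc1 : ρ * (c + D') ≤ N * dp * dq := hc ▸ Nat.mul_div_le _ _
  have hc2 : N * dp * dq < ρ * (c + D' + 1) := hc ▸ Nat.lt_mul_div_succ _ hρ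
  let I : ℕ → Ideal R := fun m => p ^ (m * dq) * q ^ ((N - m) * dp)
  have hI : ∀ m, I m ≠ ⊥ := fun m => mul_ne_zero (pow_ne_zero _ hp) (pow_ne_zero _ hq)
  have hIl : ∀ m ≤ N, finrank k (R ⧸ I m) = N * dp * dq := fun m hm => by
    obtain ⟨r, hr⟩ := Nat.exists_eq_add_of_le hm
    rw [finrank_mul b _ _ (pow_ne_zero _ hp) (pow_ne_zero _ hq),
      map_pow_of_add (fun I : Ideal R => finrank k (R ⧸ I)) (finrank_mul b) hp,
      map_pow_of_add (fun I : Ideal R => finrank k (R ⧸ I)) (finrank_mul b) hq, ← hdp', ← hdq', hr,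
      Nat.add_sub_cancel_left, smul_eq_mul, smul_eq_mul]
    ring
  have hx : ∀ m : Fin (K + 1), ∃ (x : R) (J : {J // J ∣ P}), x ∈ VV b (c + D') ∧ x ≠ 0 ∧
      ρ * (c + D') ≤ (Algebra.norm k[X] x).natDegree ∧ φ (span {x}) = φ (I m) + φ J := fun m => by
    have hm : (m : ℕ) ≤ N := by have := m.2; omega
    have := finite_quot b (hI m)
    obtain ⟨x, hxI, hx, h0⟩ := exists_mem_VV b (I m) (c + D') (by rw [hIl m hm]; exact hc2)
    obtain ⟨J, hJ⟩ := dvd_span_singleton.2 hxI
    have hJ0 : J ≠ ⊥ := by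
      rintro rfl
      exact h0 (by simpa using hJ)
    have h1 := finrank_quotient_span_eq_natDegree_norm (F := k) b h0
    rw [hJ, finrank_mul b _ _ (hI m) hJ0, hIl m hm] at h1
    have h2 := (hC _ x hx).1
    exact ⟨x, ⟨J, hP' J hJ0 (by omega)⟩, hx, h0, by omega, by rw [hJ, hadd _ _ (hI m) hJ0]⟩
  choose x J hxV hx0 hxn hxφ using hx
  obtain ⟨m, m', hne, he⟩ := Fintype.exists_ne_map_eq_of_card_lt
    (fun m => ((fun i (j : Fin D') => (b.repr (x m) i).coeff (c + j + 1), J m) :
      (ι → Fin D' → k) × {J // J ∣ P})) (by simp [K])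
  obtain ⟨he1, he2⟩ := Prod.mk.inj he
  have h1 : φ (I m') = φ (I m) := by
    have := hD' c _ _ (hxV m) (hx0 m) (hx0 m') (fun i => ?_) (hxn m)
    · rw [hxφ, hxφ, he2] at this
      exact add_right_cancel this
    rw [natDegree_le_iff_coeff_eq_zero]
    intro n hn
    rw [map_sub, Finsupp.sub_apply, coeff_sub]
    by_cases h : n ≤ c + D'
    · have := congrFun (congrFun he1 i) ⟨n - c - 1, by omega⟩
      simp only [show c + (n - c - 1) + 1 = n by omega] at this
      rw [this, sub_self]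
    · rw [coeff_eq_zero_of_natDegree_lt (lt_of_le_of_lt (hxV m i) (by omega)),
        coeff_eq_zero_of_natDegree_lt (lt_of_le_of_lt (hxV m' i) (by omega)), sub_self]
  have key : ∀ m m' : ℕ, m < m' → m' ≤ N → φ (I m') = φ (I m) →
      ∃ n : ℕ, 0 < n ∧ n • (dq • φ p - dp • φ q) = 0 := fun m m' h hm he => by
    obtain ⟨r, hr⟩ := Nat.exists_eq_add_of_le hm
    obtain ⟨n, rfl⟩ := Nat.exists_eq_add_of_lt h
    refine ⟨n + 1, n.succ_pos, ?_⟩
    simp only [I, hadd _ _ (pow_ne_zero _ hp) (pow_ne_zero _ hq), map_pow_of_add φ hadd hp,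
      map_pow_of_add φ hadd hq, show N - (m + n + 1) = r by omega,
      show N - m = n + 1 + r by omega] at he
    rw [← sub_eq_zero] at he
    rw [← he]
    simp only [add_mul, add_smul, smul_sub, mul_smul, one_mul, one_smul]
    abel
  rcases Nat.lt_or_gt_of_ne (Fin.val_ne_of_ne hne) with h | h
  · exact key _ _ h (by have := m'.2; omega) h1
  · exact key _ _ h (by have := m.2; omega) h1.symm

end ideals

end Pool.Agent.P.MP_dd457d_ag
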