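import Pool.Agent.P.MP_dd457d_ag.Defs

/-! Constructions of dg modules: submodules, quotients, shifts, twisted products, cones. -/

namespace Pool.Agent.P.MP_dd457d_ag

universe u

variable {k : Type u} [Field k] {A : DGAlg k} {R : Type u} [CommRing R] [Algebra k R]

section proj
variable {M : Type u} [AddCommGroup M] [Module R M] (p : ℤ → M →ₗ[R] M)

theorem sum_proj_mono (hp : ∀ m n x, p m (p n x) = if m = n then p n x else 0) {x : M}
    {s t : Finset ℤ} (hs : ∑ n ∈ s, p n x = x) (hst : s ⊆ t) : ∑ n ∈ t, p n x = x := by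
  rw [← hs, ← Finset.sum_subset hst]
  · rw [hs, hs]
  · intro m _ hm
    rw [hs, ← hs, map_sum]
    refine Finset.sum_eq_zero fun n hn => ?_
    rw [hp, if_neg]
    rintro rfl
    exact hm hn

theorem good_add (hp : ∀ m n x, p m (p n x) = if m = n then p n x else 0) {x y : M}
    (hx : ∃ s : Finset ℤ, ∑ n ∈ s, p n x = x) (hy : ∃ s : Finset ℤ, ∑ n ∈ s, p n y = y) :
    ∃ s : Finset ℤ, ∑ n ∈ s, p n (x + y) = x + y := by
  obtain ⟨s, hs⟩ := hx
  obtain ⟨t, ht⟩ := hy
  refine ⟨s ∪ t, ?_⟩
  simp only [map_add, Finset.sum_add_distrib]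
  rw [sum_proj_mono p hp hs Finset.subset_union_left,
    sum_proj_mono p hp ht Finset.subset_union_right]

theorem map_sg {N : Type u} [AddCommGroup N] [Module R N] (f : M →ₗ[R] N) (e : ℤˣ) (x : M) :
    f (e • x) = e • f x := by
  rw [Units.smul_def, Units.smul_def, map_zsmul]

end proj

namespace DGMod

variable (M : DGMod A R)

theorem π_self (n : ℤ) (x : M.M) : M.π n (M.π n x) = M.π n x := by simp [M.π_π]

theorem ind {P : M.M → Prop} (h0 : P 0) (hadd : ∀ x y, P x → P y → P (x + y))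
    (hπ : ∀ n x, P (M.π n x)) (x : M.M) : P x := by
  obtain ⟨s, hs⟩ := M.sum_π x
  rw [← hs]
  exact Finset.sum_induction _ P hadd h0 fun n _ => hπ n x

/-- Dg submodules. -/
structure Sub (M : DGMod A R) where
  U : Submodule R M.M
  act : ∀ a, ∀ x ∈ U, M.act a x ∈ U
  π : ∀ n, ∀ x ∈ U, M.π n x ∈ U
  d : ∀ x ∈ U, M.d x ∈ U

variable {M}

/-- A dg submodule as a dg module. -/
abbrev Sub.mod (U : Sub M) : DGMod A R where
  M := U.U
  act a := (M.act a).restrict (U.act a)
  act_add a b x := Subtype.ext (M.act_add a b x)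
  act_smul c a x := Subtype.ext (M.act_smul c a x)
  act_one x := Subtype.ext (M.act_one x)
  act_mul a b x := Subtype.ext (M.act_mul a b x)
  π n := (M.π n).restrict (U.π n)
  π_π m n x := Subtype.ext (by
    have := M.π_π m n x
    by_cases h : m = n <;> simp_all)
  sum_π x := by
    obtain ⟨s, hs⟩ := M.sum_π x
    exact ⟨s, Subtype.ext (by simpa using hs)⟩
  π_act n j x a ha := Subtype.ext (M.π_act n j x a ha)
  d := M.d.restrict U.d
  π_d n x := Subtype.ext (M.π_d n x)
  d_d x := Subtype.ext (M.d_d x)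
  leibniz n x a := Subtype.ext (M.leibniz n x a)

/-- The quotient by a dg submodule. -/
abbrev Sub.quot (U : Sub M) : DGMod A R where
  M := M.M ⧸ U.U
  act a := U.U.mapQ U.U (M.act a) (U.act a)
  act_add a b x := by
    obtain ⟨x, rfl⟩ := U.U.mkQ_surjective x
    simp [M.act_add]
  act_smul c a x := by
    obtain ⟨x, rfl⟩ := U.U.mkQ_surjective x
    simp [M.act_smul]
  act_one x := by
    obtain ⟨x, rfl⟩ := U.U.mkQ_surjective x
    simp [M.act_one]
  act_mul a b x := by
    obtain ⟨x, rfl⟩ := U.U.mkQ_surjective x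
    simp [M.act_mul]
  π n := U.U.mapQ U.U (M.π n) (U.π n)
  π_π m n x := by
    obtain ⟨x, rfl⟩ := U.U.mkQ_surjective x
    by_cases h : m = n <;> simp [M.π_π, h]
  sum_π x := by
    obtain ⟨x, rfl⟩ := U.U.mkQ_surjective x
    obtain ⟨s, hs⟩ := M.sum_π x
    refine ⟨s, ?_⟩
    conv_rhs => rw [← hs]
    simp [map_sum]
  π_act n j x a ha := by
    obtain ⟨x, rfl⟩ := U.U.mkQ_surjective x
    simp [M.π_act n j x a ha]
  d := U.U.mapQ U.U M.d U.d
  π_d n x := by
    obtain ⟨x, rfl⟩ := U.U.mkQ_surjective x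
    simp [M.π_d]
  d_d x := by
    obtain ⟨x, rfl⟩ := U.U.mkQ_surjective x
    simp [M.d_d]
  leibniz n x a := by
    obtain ⟨x, rfl⟩ := U.U.mkQ_surjective x
    simp [M.leibniz, Units.smul_def]

/-- The shift `M[j]`. -/
abbrev shift (M : DGMod A R) (j : ℤ) : DGMod A R where
  M := M.M
  act := M.act
  act_add := M.act_add
  act_smul := M.act_smul
  act_one := M.act_one
  act_mul := M.act_mul
  π n := M.π (n + j)
  π_π m n x := by simp [M.π_π]
  sum_π x := by
    obtain ⟨s, hs⟩ := M.sum_π x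
    refine ⟨s.map (Equiv.subRight j).toEmbedding, ?_⟩
    simpa using hs
  π_act n i x a ha := by
    rw [add_right_comm]; exact M.π_act (n + j) i x a ha
  d := j.negOnePow • M.d
  π_d n x := by
    rw [add_right_comm]
    simp only [LinearMap.smul_apply, map_sg, M.π_d]
  d_d x := by simp only [LinearMap.smul_apply, map_sg, M.d_d, smul_zero]
  leibniz n x a := by
    simp only [LinearMap.smul_apply, M.leibniz, smul_add, smul_smul]
    congr 1
    · rw [map_sg]
    · rw [← Int.negOnePow_add]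
      congr 1
      rw [Int.negOnePow_eq_iff]
      exact ⟨j, by ring⟩

end DGMod

open DGMod

/-- `f` is `A`-linear and homogeneous of degree `j`. -/
structure IsG {M N : DGMod A R} (f : M.M →ₗ[R] N.M) (j : ℤ) : Prop where
  act : ∀ a x, f (M.act a x) = N.act a (f x)
  π : ∀ n x, f (M.π n x) = N.π (n + j) (f x)

/-- Extension of `P` by `N` twisted by a degree one cycle `φ`. -/
abbrev tw (N P : DGMod A R) (φ : P.M →ₗ[R] N.M) (hφ : IsG φ 1)
    (hd : ∀ x, N.d (φ x) + φ (P.d x) = 0) : DGMod A R where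
  M := N.M × P.M
  act a := (N.act a).prodMap (P.act a)
  act_add a b x := by simp [N.act_add, P.act_add]
  act_smul c a x := by simp [N.act_smul, P.act_smul]
  act_one x := by simp [N.act_one, P.act_one]
  act_mul a b x := by simp [N.act_mul, P.act_mul]
  π n := (N.π n).prodMap (P.π n)
  π_π m n x := by by_cases h : m = n <;> simp [N.π_π, P.π_π, h]
  sum_π x := by
    obtain ⟨s, hs⟩ := N.sum_π x.1
    obtain ⟨t, ht⟩ := P.sum_π x.2
    refine ⟨s ∪ t, ?_⟩
    ext
    · simpa [Prod.fst_sum] using sum_proj_mono N.π N.π_π hs Finset.subset_union_left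
    · simpa [Prod.snd_sum] using sum_proj_mono P.π P.π_π ht Finset.subset_union_right
  π_act n j x a ha := by simp [N.π_act n j _ a ha, P.π_act n j _ a ha]
  d := ((N.d.comp (LinearMap.fst R _ _)) + φ.comp (LinearMap.snd R _ _)).prod
    (P.d.comp (LinearMap.snd R _ _))
  π_d n x := by simp [N.π_d, P.π_d, hφ.π]
  d_d x := by simp [N.d_d, P.d_d, hd]
  leibniz n x a := by
    ext
    · simp [N.leibniz, hφ.act]; abel
    · simp [P.leibniz]

/-- Direct sum. -/
abbrev prod (N P : DGMod A R) : DGMod A R :=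
  tw N P 0 ⟨by simp, by simp⟩ (by simp)

/-- Mapping cone. -/
abbrev cone {M N : DGMod A R} (f : Hom M N) : DGMod A R :=
  tw N (M.shift 1) f.f ⟨f.act, fun n x => f.π (n + 1) x⟩
    (fun (x : M.M) => by
      change N.d (f.f x) + f.f ((1 : ℤ).negOnePow • M.d x) = 0
      simp [f.d])

namespace Hom

variable {L M N P : DGMod A R}

theorem isG (f : Hom M N) : IsG f.f 0 := ⟨f.act, by simpa using f.π⟩

/-- Identity. -/
@[simps] def id (M : DGMod A R) : Hom M M := ⟨LinearMap.id, by simp, by simp, by simp⟩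

/-- Zero map. -/
@[simps] def zero (M N : DGMod A R) : Hom M N := ⟨0, by simp, by simp, by simp⟩

/-- Composition. -/
@[simps] def comp (g : Hom N P) (f : Hom M N) : Hom M P :=
  ⟨g.f.comp f.f, by simp [f.act, g.act], by simp [f.π, g.π], by simp [f.d, g.d]⟩

/-- Sum. -/
@[simps] def add (f g : Hom M N) : Hom M N :=
  ⟨f.f + g.f, by simp [f.act, g.act], by simp [f.π, g.π], by simp [f.d, g.d]⟩

/-- Difference. -/
@[simps] def sub (f g : Hom M N) : Hom M N :=
  ⟨f.f - g.f, by simp [f.act, g.act], by simp [f.π, g.π], by simp [f.d, g.d]⟩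

/-- Multiplication by a scalar. -/
@[simps] def smul (r : R) (f : Hom M N) : Hom M N :=
  ⟨r • f.f, by simp [f.act], by simp [f.π], by simp [f.d]⟩

/-- Restriction of scalars. -/
@[simps] def res (f : Hom M N) : Hom (res M) (res N) :=
  ⟨f.f.restrictScalars k, f.act, f.π, f.d⟩

/-- Shift of a map. -/
@[simps] def shift (f : Hom M N) (j : ℤ) : Hom (M.shift j) (N.shift j) :=
  ⟨f.f, f.act, fun n x => f.π (n + j) x, fun x => by
    change f.f (j.negOnePow • M.d x) = j.negOnePow • N.d (f.f x)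
    rw [map_sg, f.d]⟩

/-- Kernel. -/
@[simps] def ker (f : Hom M N) : Sub M :=
  ⟨LinearMap.ker f.f, by simp +contextual [f.act], by simp +contextual [f.π],
    by simp +contextual [f.d]⟩

/-- Factorisation through an injective map. -/
noncomputable def lift (ι : Hom N P) (hι : Function.Injective ι.f) (φ : Hom M P)
    (h : ∀ x, φ.f x ∈ LinearMap.range ι.f) : Hom M N where
  f := LinearMap.codRestrictOfInjective φ.f ι.f hι h
  act a x := hι (by simp [ι.act, φ.act])
  π n x := hι (by simp [ι.π, φ.π])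
  d x := hι (by simp [ι.d, φ.d])

@[simp] theorem lift_apply (ι : Hom N P) (hι : Function.Injective ι.f) (φ : Hom M P)
    (h : ∀ x, φ.f x ∈ LinearMap.range ι.f) (x : M.M) : ι.f ((lift ι hι φ h).f x) = φ.f x := by
  simp [lift]

/-- First inclusion into a twisted product. -/
@[simps] def inl (N P : DGMod A R) (φ : P.M →ₗ[R] N.M) (hφ : IsG φ 1)
    (hd : ∀ x, N.d (φ x) + φ (P.d x) = 0) : Hom N (tw N P φ hφ hd) :=
  ⟨LinearMap.inl R _ _, by simp, by simp, by simp⟩

/-- Second projection of a twisted product. -/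
@[simps] def snd (N P : DGMod A R) (φ : P.M →ₗ[R] N.M) (hφ : IsG φ 1)
    (hd : ∀ x, N.d (φ x) + φ (P.d x) = 0) : Hom (tw N P φ hφ hd) P :=
  ⟨LinearMap.snd R _ _, by simp, by simp, by simp⟩

/-- First projection of a direct sum. -/
@[simps] def fst (N P : DGMod A R) : Hom (prod N P) N :=
  ⟨LinearMap.fst R _ _, by simp, by simp, by simp⟩

/-- Second inclusion into a direct sum. -/
@[simps] def inr (N P : DGMod A R) : Hom P (prod N P) :=
  ⟨LinearMap.inr R _ _, by simp, by simp, by simp⟩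

/-- Map into a direct sum. -/
@[simps] def pair (f : Hom M N) (g : Hom M P) : Hom M (prod N P) :=
  ⟨f.f.prod g.f, by simp [f.act, g.act], by simp [f.π, g.π], by simp [f.d, g.d]⟩

/-- Direct sum of maps. -/
@[simps] def pmap {M' N' : DGMod A R} (f : Hom M N) (g : Hom M' N') :
    Hom (prod M M') (prod N N') :=
  ⟨f.f.prodMap g.f, by simp [f.act, g.act], by simp [f.π, g.π], by simp [f.d, g.d]⟩

end Hom

namespace DGMod.Sub

variable {M N : DGMod A R}

/-- Inclusion of a submodule. -/
@[simps] def incl (U : Sub M) : Hom U.mod M := ⟨U.U.subtype, by simp, by simp, by simp⟩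

/-- Projection to the quotient. -/
@[simps] def proj (U : Sub M) : Hom M U.quot := ⟨U.U.mkQ, by simp, by simp, by simp⟩

/-- The zero submodule. -/
@[simps] def bot (M : DGMod A R) : Sub M := ⟨⊥, by simp, by simp, by simp⟩

/-- The whole module. -/
@[simps] def top (M : DGMod A R) : Sub M := ⟨⊤, by simp, by simp, by simp⟩

/-- Preimage. -/
@[simps] def comap (U : Sub N) (f : Hom M N) : Sub M :=
  ⟨U.U.comap f.f, fun a x hx => by simpa [f.act] using U.act a _ hx,
    fun n x hx => by simpa [f.π] using U.π n _ hx, fun x hx => by simpa [f.d] using U.d _ hx⟩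

/-- Map between submodules. -/
@[simps] def restr (f : Hom M N) (U : Sub M) (V : Sub N) (h : ∀ x ∈ U.U, f.f x ∈ V.U) :
    Hom U.mod V.mod :=
  ⟨f.f.restrict h, fun a x => Subtype.ext (f.act a x), fun n x => Subtype.ext (f.π n x),
    fun x => Subtype.ext (f.d x)⟩

/-- Map between quotients. -/
@[simps] def mapQ (f : Hom M N) (U : Sub M) (V : Sub N) (h : ∀ x ∈ U.U, f.f x ∈ V.U) :
    Hom U.quot V.quot where
  f := U.U.mapQ V.U f.f h
  act a x := by
    obtain ⟨x, rfl⟩ := U.U.mkQ_surjective x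
    simp [f.act]
  π n x := by
    obtain ⟨x, rfl⟩ := U.U.mkQ_surjective x
    simp [f.π]
  d x := by
    obtain ⟨x, rfl⟩ := U.U.mkQ_surjective x
    simp [f.d]

/-- Map out of a quotient. -/
@[simps] def liftQ (f : Hom M N) (U : Sub M) (h : ∀ x ∈ U.U, f.f x = 0) : Hom U.quot N where
  f := U.U.liftQ f.f h
  act a x := by
    obtain ⟨x, rfl⟩ := U.U.mkQ_surjective x
    exact f.act a x
  π n x := by
    obtain ⟨x, rfl⟩ := U.U.mkQ_surjective x
    exact f.π n x
  d x := by
    obtain ⟨x, rfl⟩ := U.U.mkQ_surjective x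
    exact f.d x

theorem ses (U : Sub M) : SES U.incl U.proj :=
  ⟨Subtype.val_injective, U.U.mkQ_surjective, LinearMap.exact_subtype_mkQ U.U⟩

end DGMod.Sub

theorem ses_tw (N P : DGMod A R) (φ : P.M →ₗ[R] N.M) (hφ : IsG φ 1)
    (hd : ∀ x, N.d (φ x) + φ (P.d x) = 0) : SES (Hom.inl N P φ hφ hd) (Hom.snd N P φ hφ hd) :=
  ⟨LinearMap.inl_injective, LinearMap.snd_surjective, Function.Exact.inl_snd⟩

theorem ses_ker {M N : DGMod A R} (g : Hom M N) (hg : Function.Surjective g.f) :
    SES g.ker.incl g :=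
  ⟨Subtype.val_injective, hg, LinearMap.exact_subtype_ker_map g.f⟩

theorem SES.shift {M N P : DGMod A R} {f : Hom M N} {g : Hom N P} (h : SES f g) (j : ℤ) :
    SES (f.shift j) (g.shift j) := h

theorem SES.res {M N P : DGMod A R} {f : Hom M N} {g : Hom N P} (h : SES f g) :
    SES f.res g.res := h

end Pool.Agent.P.MP_dd457d_ag
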