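import Pool.Agent.P.MP_dd457d_ag.QI

/-! Finite cell modules; every perfect module is a summand of one up to quasi-isomorphism. -/

namespace Pool.Agent.P.MP_dd457d_ag

universe u

variable {k : Type u} [Field k] {A : DGAlg k} {R : Type u} [CommRing R] [Algebra k R]

open DGMod TensorProduct

variable {L M N P : DGMod A R}

/-- The map `r ⊗ a ↦ r • x · a`. -/
noncomputable abbrev gen (M : DGMod A R) (x : M.M) : R ⊗[k] A.A →ₗ[R] M.M :=
  LinearMap.liftBaseChange R (orb M x)

@[simp] theorem orb_apply (x : M.M) (a : A.A) : orb M x a = M.act a x := rfl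

theorem gen_tmul (x : M.M) (r : R) (a : A.A) : gen M x (r ⊗ₜ a) = r • M.act a x := rfl

theorem alg_ind {Q : A.A → Prop} (h0 : Q 0) (hadd : ∀ a b, Q a → Q b → Q (a + b))
    (hh : ∀ j, ∀ a ∈ A.gr j, Q a) (a : A.A) : Q a := by
  induction a using DirectSum.Decomposition.inductionOn A.gr with
  | zero => exact h0
  | homogeneous a => exact hh _ _ a.2
  | add a b ha hb => exact hadd a b ha hb

theorem tens_ind {Q : R ⊗[k] A.A → Prop} (h0 : Q 0) (hadd : ∀ a b, Q a → Q b → Q (a + b))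
    (hh : ∀ r j, ∀ a ∈ A.gr j, Q (r ⊗ₜ a)) (b : R ⊗[k] A.A) : Q b := by
  induction b using TensorProduct.induction_on with
  | zero => exact h0
  | add a b ha hb => exact hadd a b ha hb
  | tmul r a =>
    induction a using alg_ind with
    | h0 => simpa using h0
    | hadd a b ha hb => rw [tmul_add]; exact hadd _ _ ha hb
    | hh j a ha => exact hh r j a ha

theorem map_gen {f : M.M →ₗ[R] N.M} (hf : ∀ a x, f (M.act a x) = N.act a (f x)) (x : M.M)
    (b : R ⊗[k] A.A) : f (gen M x b) = gen N (f x) b := by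
  induction b using TensorProduct.induction_on with
  | zero => simp
  | add a b ha hb => rw [map_add, map_add, map_add, ha, hb]
  | tmul r a => rw [gen_tmul, gen_tmul, map_smul, hf]

theorem π_act_hom {n j : ℤ} {x : M.M} (hx : M.π n x = x) {a : A.A} (ha : a ∈ A.gr j) (m : ℤ) :
    M.π m (M.act a x) = if m = n + j then M.act a x else 0 := by
  have h := M.π_act (m - j) j x a ha
  rw [sub_add_cancel] at h
  rw [h, ← hx, M.π_π]
  by_cases e : m = n + j
  · rw [if_pos e, if_pos (by omega)]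
  · rw [if_neg e, if_neg (by omega), map_zero]

theorem d_act_hom {n : ℤ} {x : M.M} (hx : M.π n x = x) (a : A.A) :
    M.d (M.act a x) = M.act a (M.d x) + n.negOnePow • M.act (A.d a) x := by
  have := M.leibniz n x a
  rwa [hx] at this

/-- Finite cell modules. -/
inductive Cell : DGMod A R → Prop
  | zero {M : DGMod A R} : (∀ x : M.M, x = 0) → Cell M
  | ext {M N P : DGMod A R} (f : Hom M N) (g : Hom N P) : SES f g → FreeOne P → Cell M → Cell N

/-- Elements of a one-cell extension. -/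
theorem ext_ind {f : Hom M N} {g : Hom N P} (h : SES f g) {x : N.M}
    (hb : Function.Surjective (gen P (g.f x))) {Q : N.M → Prop} (h0 : ∀ z, Q (f.f z))
    (hadd : ∀ a b, Q a → Q b → Q (a + b))
    (hh : ∀ (r : R) j, ∀ a ∈ A.gr j, Q (r • N.act a x)) (z : N.M) : Q z := by
  obtain ⟨b, hb⟩ := hb (g.f z)
  obtain ⟨w, hw⟩ := (h.2.2 (z - gen N x b)).1 (by rw [map_sub, map_gen g.act, hb, sub_self])
  have e : z = f.f w + gen N x b := by rw [hw]; abel
  rw [e]
  refine hadd _ _ (h0 w) ?_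
  clear hb hw e
  induction b using tens_ind with
  | h0 => simpa using h0 0
  | hadd a b ha hb => rw [map_add]; exact hadd _ _ ha hb
  | hh r j a ha => exact hh r j a ha

theorem exists_ext {f : Hom M N} {g : Hom N P} (h : SES f g) {n : ℤ} {x : N.M}
    (hx : N.π n x = x) (hb : Function.Bijective (gen P (g.f x))) {Y : DGMod A R} {j : ℤ}
    (φ : M.M →ₗ[R] Y.M) (hφ : IsG φ j) (ξ : Y.M) (hξ : Y.π (n + j) ξ = ξ) :
    ∃ ψ : N.M →ₗ[R] Y.M, IsG ψ j ∧ (∀ z, ψ (f.f z) = φ z) ∧ ψ x = ξ := by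
  let e := LinearEquiv.ofBijective _ hb
  let c : N.M →ₗ[R] R ⊗[k] A.A := e.symm.toLinearMap.comp g.f
  have hc : ∀ b, c (gen N x b) = b := fun b => by
    simp only [c, LinearMap.comp_apply, map_gen g.act]
    exact e.symm_apply_apply b
  have hcf : ∀ z, c (f.f z) = 0 := fun z => by
    simp [c, h.2.2.apply_apply_eq_zero]
  let s : N.M →ₗ[R] N.M := LinearMap.id - (gen N x).comp c
  have hs : ∀ z, s z ∈ LinearMap.range f.f := fun z => by
    refine (h.2.2 _).1 ?_
    simp only [s, LinearMap.sub_apply, LinearMap.id_apply, LinearMap.comp_apply, map_sub,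
      map_gen g.act, c]
    rw [sub_eq_zero]
    exact (e.apply_symm_apply _).symm
  let t := LinearMap.codRestrictOfInjective s f.f h.1 hs
  have ht : ∀ z, f.f (t z) = s z := fun z => by simp [t]
  let ψ : N.M →ₗ[R] Y.M := φ.comp t + (gen Y ξ).comp c
  have h1 : ∀ z, ψ (f.f z) = φ z := fun z => by
    have : t (f.f z) = z := h.1 (by rw [ht]; simp [s, hcf])
    simp [ψ, this, hcf]
  have h2 : ∀ (r : R) a, ψ (r • N.act a x) = r • Y.act a ξ := fun r a => by
    have : t (gen N x (r ⊗ₜ a)) = 0 := h.1 (by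
      rw [ht, map_zero]
      simp only [s, LinearMap.sub_apply, LinearMap.id_apply, LinearMap.comp_apply, hc, sub_self])
    rw [← gen_tmul, ← gen_tmul]
    simp only [ψ, LinearMap.add_apply, LinearMap.comp_apply, this, hc, map_zero, zero_add]
  refine ⟨ψ, ⟨fun a z => ?_, fun m z => ?_⟩, h1, ?_⟩
  · induction z using ext_ind h hb.2 with
    | h0 z => rw [← f.act, h1, h1, hφ.act]
    | hadd z w hz hw => simp only [map_add, hz, hw]
    | hh r i b hb => rw [h2, map_smul (N.act a), map_smul (Y.act a), ← N.act_mul, ← Y.act_mul, h2]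
  · induction z using ext_ind h hb.2 with
    | h0 z => rw [← f.π, h1, h1, hφ.π]
    | hadd z w hz hw => simp only [map_add, hz, hw]
    | hh r i b hb =>
      rw [h2, map_smul, map_smul (Y.π _), π_act_hom hx hb, π_act_hom hξ hb]
      by_cases e : m = n + i
      · rw [if_pos e, if_pos (by omega), h2]
      · rw [if_neg e, if_neg (by omega)]; simp
  · have := h2 1 1
    rwa [N.act_one, Y.act_one, one_smul, one_smul] at this

theorem exists_gen_lift {g : Hom N P} (hg : Function.Surjective g.f) (hP : FreeOne P) :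
    ∃ (n : ℤ) (x : N.M), N.π n x = x ∧ g.f (N.d x) = 0 ∧
      Function.Bijective (gen P (g.f x)) := by
  obtain ⟨n, y, h1, h2, h3⟩ := hP
  obtain ⟨x, rfl⟩ := hg y
  have e : g.f (N.π n x) = g.f x := by rw [g.π, h1]
  exact ⟨n, N.π n x, N.π_self n x, by rw [g.d, e, h2], by rw [e]; exact h3⟩

/-- Maps from cell modules lift through quasi-isomorphisms up to homotopy. -/
theorem Cell.lift {F : DGMod A R} (hF : Cell F) {X Y : DGMod A R} {q : Hom X Y} (hq : QI q)
    (φ : Hom F Y) : ∃ (ψ : Hom F X) (h : F.M →ₗ[R] Y.M), IsG h (-1) ∧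
      ∀ z, q.f (ψ.f z) - φ.f z = Y.d (h z) + h (F.d z) := by
  induction hF with
  | @zero M h0 =>
    exact ⟨Hom.zero _ _, 0, ⟨by simp, by simp⟩, fun z => by rw [h0 z]; simp⟩
  | @ext M N P f g hs hP _ ih =>
    obtain ⟨ψ, h, hG, hh⟩ := ih (φ.comp f)
    obtain ⟨n, x, hx, hdx, hb⟩ := exists_gen_lift hs.2.1 hP
    obtain ⟨w, hw⟩ := (hs.2.2 _).1 hdx
    have hwd : M.d w = 0 := hs.1 (by rw [f.d, hw, N.d_d, map_zero])
    have hwπ : M.π (n + 1) w = w := hs.1 (by rw [f.π, hw, N.π_d, hx])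
    have e1 := hh w
    rw [hwd, map_zero, add_zero] at e1
    simp only [Hom.comp_f, LinearMap.comp_apply, hw] at e1
    obtain ⟨y', x', h1, h2⟩ := hq (-(φ.f x + h w)) (ψ.f w) (by rw [← ψ.d, hwd, map_zero])
      (by rw [map_neg, map_add, ← e1, φ.d]; abel)
    have h3 : X.d (X.π n (-x')) = ψ.f w := by
      rw [← X.π_d, map_neg, h2, ← ψ.π, hwπ]
    have h4 : q.f (X.π n (-x')) - φ.f x = Y.d (Y.π (n + -1) y') + h w := by
      have e2 : Y.π n (h w) = h w := by
        conv_rhs => rw [← hwπ, hG.π]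
        congr 2; ring
      have e3 := congrArg (Y.π n) h1
      rw [map_add, map_neg, map_add, e2, ← φ.π, hx, ← q.π] at e3
      rw [← Y.π_d, show n + -1 + 1 = n by ring, map_neg, map_neg, ← sub_eq_zero]
      rw [← sub_eq_zero] at e3
      rw [← neg_eq_zero, ← e3]; abel
    obtain ⟨ψ', hψG, hψ1, hψ2⟩ := exists_ext hs hx hb ψ.f ψ.isG (X.π n (-x'))
      (by rw [add_zero, X.π_self])
    obtain ⟨h', hG', hh1, hh2⟩ := exists_ext hs hx hb h hG (Y.π (n + -1) y') (Y.π_self _ _)
    have hd : ∀ z, ψ' (N.d z) = X.d (ψ' z) := fun z => by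
      induction z using ext_ind hs hb.2 with
      | h0 z => rw [← f.d, hψ1, hψ1, ψ.d]
      | hadd z w hz hw => simp only [map_add, hz, hw]
      | hh r i b _ =>
        simp only [map_smul]
        rw [d_act_hom hx, hψG.act, hψ2, d_act_hom (X.π_self n _), h3, map_add, map_sg, hψG.act,
          hψG.act, hψ2, ← hw, hψ1]
    refine ⟨⟨ψ', hψG.act, by simpa using hψG.π, hd⟩, h', hG', fun z => ?_⟩
    induction z using ext_ind hs hb.2 with
    | h0 z => simpa [hψ1, hh1, ← f.d] using hh z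
    | hadd z w hz hw =>
      simp only [map_add] at hz hw ⊢
      rw [← sub_eq_zero] at hz hw ⊢
      rw [← add_zero 0]
      nth_rewrite 1 [← hz]
      rw [← hw]; abel
    | hh r i b _ =>
      simp only [map_smul]
      rw [← smul_sub, ← smul_add]
      congr 1
      rw [hψG.act, hψ2, q.act, φ.act, ← map_sub, h4, hG'.act, hh2,
        d_act_hom (Y.π_self _ _), d_act_hom hx, map_add, map_add, map_sg, hG'.act, hG'.act, hh2,
        ← hw, hh1, Int.negOnePow_add, Int.negOnePow_neg, Int.negOnePow_one, mul_neg, mul_one,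
        Units.neg_smul]
      abel

theorem FreeOne.of_bij (f : Hom M N) (hf : Function.Bijective f.f) (h : FreeOne M) :
    FreeOne N := by
  obtain ⟨n, x, h1, h2, h3⟩ := h
  refine ⟨n, f.f x, by rw [← f.π, h1], by rw [← f.d, h2, map_zero], ?_⟩
  have : (gen N (f.f x) : R ⊗[k] A.A → N.M) = f.f ∘ gen M x :=
    funext fun b => (map_gen f.act x b).symm
  change Function.Bijective (gen N (f.f x))
  rw [this]
  exact hf.comp h3

theorem FreeOne.shift (h : FreeOne M) (j : ℤ) : FreeOne (M.shift j) := by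
  obtain ⟨n, x, h1, h2, h3⟩ := h
  refine ⟨n - j, x, by simpa using h1, ?_, h3⟩
  change j.negOnePow • M.d x = 0
  rw [h2, smul_zero]

theorem Cell.shift (h : Cell M) (j : ℤ) : Cell (M.shift j) := by
  induction h with
  | zero h0 => exact Cell.zero h0
  | ext f g hs hP _ ih => exact Cell.ext _ _ (hs.shift j) (hP.shift j) ih

theorem Cell.of_bij (h : Cell M) (f : Hom M N) (hf : Function.Bijective f.f) : Cell N := by
  cases h with
  | zero h0 =>
    refine Cell.zero fun x => ?_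
    obtain ⟨x, rfl⟩ := hf.2 x
    rw [h0 x, map_zero]
  | ext i p hs hP hM =>
    let f' := Hom.lift f hf.1 (Hom.id N) fun x => hf.2 x
    have e1 : ∀ x, f.f (f'.f x) = x := fun x => Hom.lift_apply _ _ _ _ x
    have e2 : ∀ x, f'.f (f.f x) = x := fun x => hf.1 (e1 _)
    refine Cell.ext (f.comp i) (p.comp f') ⟨hf.1.comp hs.1, fun y => ?_, fun y => ?_⟩ hP hM
    · obtain ⟨x, rfl⟩ := hs.2.1 y
      exact ⟨f.f x, by simp [e2]⟩
    · obtain ⟨y, rfl⟩ := hf.2 y
      simp only [Hom.comp_f, LinearMap.comp_apply, e2, hs.2.2 y]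
      exact ⟨fun ⟨z, hz⟩ => ⟨z, by simp [hz]⟩, fun ⟨z, hz⟩ => ⟨z, hf.1 hz⟩⟩

theorem Cell.mid (hM : Cell M) (hP : Cell P) :
    ∀ {N : DGMod A R} (f : Hom M N) (g : Hom N P), SES f g → Cell N := by
  induction hP with
  | zero h0 =>
    intro N f g hs
    exact hM.of_bij f ⟨hs.1, fun y => (hs.2.2 y).1 (h0 _)⟩
  | @ext P' P P'' i p hs' hP _ ih =>
    intro N f g hs
    let U := (p.comp g).ker
    have hU : ∀ x : U.mod.M, (g.comp U.incl).f x ∈ LinearMap.range i.f :=
      fun x => (hs'.2.2 _).1 x.2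
    let g' := Hom.lift i hs'.1 (g.comp U.incl) hU
    have hg' : ∀ x, i.f (g'.f x) = g.f x.1 := fun x => Hom.lift_apply _ _ _ _ x
    have hf : ∀ x, f.f x ∈ LinearMap.range U.incl.f := fun x =>
      ⟨⟨f.f x, by simp [U, hs.2.2.apply_apply_eq_zero]⟩, rfl⟩
    let f' := Hom.lift U.incl Subtype.val_injective f hf
    have hf' : ∀ x, (f'.f x).1 = f.f x := fun x => Hom.lift_apply U.incl _ _ hf x
    refine Cell.ext _ _ (ses_ker (p.comp g) (hs'.2.1.comp hs.2.1)) hP
      (ih f' g' ⟨fun a b hab => hs.1 (by rw [← hf', ← hf', hab]), fun y => ?_, fun y => ?_⟩)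
    · obtain ⟨x, hx⟩ := hs.2.1 (i.f y)
      exact ⟨⟨x, by simp [U, hx, hs'.2.2.apply_apply_eq_zero]⟩, hs'.1 (by rw [hg', hx])⟩
    · constructor
      · intro hy
        obtain ⟨z, hz⟩ := (hs.2.2 y.1).1 (by rw [← hg', hy, map_zero])
        exact ⟨z, Subtype.ext (by rw [hf', hz])⟩
      · rintro ⟨z, rfl⟩
        exact hs'.1 (by rw [hg', hf', hs.2.2.apply_apply_eq_zero, map_zero])

theorem Cell.cone (f : Hom M N) (hM : Cell M) (hN : Cell N) : Cell (cone f) := by
  obtain ⟨i, p, hs⟩ := ses_of_cone f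
  exact hN.mid (hM.shift 1) i p hs

theorem cell_bot (M : DGMod A R) : Cell (Sub.bot M).mod :=
  Cell.zero fun x => Subtype.ext ((Submodule.mem_bot R).1 x.2)

theorem FreeOne.cell (h : FreeOne M) : Cell M :=
  Cell.ext (Sub.bot M).incl (Hom.id M) ⟨Subtype.val_injective, Function.surjective_id,
    fun y => ⟨fun hy => ⟨0, by simpa using hy.symm⟩, fun ⟨z, hz⟩ => by
      have : z.1 = 0 := (Submodule.mem_bot R).1 z.2
      rw [← hz]; exact this⟩⟩ h (cell_bot M)

/-- `M` is a direct summand of a module quasi-isomorphic to a finite cell module. -/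
def Summ (M : DGMod A R) : Prop :=
  ∃ (K F : DGMod A R) (q : Hom F (prod M K)), Cell F ∧ QI q

theorem Summ.to (h : Summ M) {f : Hom M N} (hf : QI f) : Summ N := by
  obtain ⟨K, F, q, hF, hq⟩ := h
  exact ⟨K, F, (f.pmap (Hom.id K)).comp q, hF,
    (hf.pmap (qi_of_bij Function.bijective_id)).comp hq⟩

theorem Summ.from (h : Summ N) {f : Hom M N} (hf : QI f) : Summ M := by
  obtain ⟨K, F, q, hF, hq⟩ := h
  have h1 := hf.pmap (qi_of_bij (f := Hom.id K) Function.bijective_id)
  obtain ⟨ψ, h, _, hh⟩ := hF.lift h1 q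
  exact ⟨K, F, ψ, hF, h1.of_comp hq h hh⟩

theorem Summ.shift (h : Summ M) (j : ℤ) : Summ (M.shift j) := by
  obtain ⟨K, F, q, hF, hq⟩ := h
  let e : Hom ((prod M K).shift j) (prod (M.shift j) (K.shift j)) :=
    ⟨LinearMap.id, fun _ _ => rfl, fun _ _ => rfl, fun x => by ext <;> simp⟩
  exact ⟨K.shift j, F.shift j, e.comp (q.shift j), hF.shift j,
    (qi_of_bij (f := e) Function.bijective_id).comp (hq.shift j)⟩

theorem Summ.of_shift_one (h : Summ (M.shift 1)) : Summ M := by
  let e : Hom ((M.shift 1).shift (-1)) M :=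
    ⟨LinearMap.id, fun _ _ => rfl, fun n x => by simp, fun x => by simp⟩
  exact (h.shift (-1)).to (qi_of_bij (f := e) Function.bijective_id)

theorem Summ.cone (f : Hom M N) (hM : Summ M) (hN : Summ N) : Summ (cone f) := by
  obtain ⟨K, F, q, hF, hq⟩ := hM
  obtain ⟨K', F', q', hF', hq'⟩ := hN
  let Φ : Hom (prod M K) (prod N K') := (f.comp (Hom.fst M K)).pair (Hom.zero _ _)
  obtain ⟨ψ, h, hG, hh⟩ := hF.lift hq' (Φ.comp q)
  have h1 := qi_coneMap ψ Φ q q' h hG hh hq hq'
  let l : ((N.M × K'.M) × (M.M × K.M)) ≃ₗ[R] ((N.M × M.M) × (K'.M × K.M)) :=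
    LinearEquiv.prodProdProdComm R _ _ _ _
  let e : Hom (MP_dd457d_ag.cone Φ) (prod (MP_dd457d_ag.cone f) (prod K' (K.shift 1))) :=
    ⟨l.toLinearMap, fun _ _ => rfl, fun _ _ => rfl, fun x => by
      rw [cone_d]
      ext <;> simp [l, Φ]⟩
  exact ⟨_, _, e.comp _, hF.cone ψ hF', (qi_of_bij (f := e) l.bijective).comp h1⟩

theorem Summ.left {f : Hom M N} {g : Hom N P} (hs : SES f g) (hN : Summ N) (hP : Summ P) :
    Summ M :=
  ((hN.cone g hP).from (qi_toCone f g hs)).of_shift_one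

theorem Perf.summ (h : Perf M) : Summ M := by
  induction h with
  | @free M h =>
    refine ⟨(Sub.bot M).mod, M, Hom.inl _ _ _ _ _, h.cell, qi_of_bij ⟨LinearMap.inl_injective, ?_⟩⟩
    rintro ⟨x, y⟩
    have : y = 0 := Subtype.ext ((Submodule.mem_bot R).1 y.2)
    exact ⟨x, by simp [this]⟩
  | @acyclic M h =>
    refine ⟨(Sub.bot M).mod, (Sub.bot M).mod, Hom.zero _ _, cell_bot M, ?_⟩
    rintro ⟨y, y'⟩ x _ h2
    have e1 : y' = 0 := Subtype.ext ((Submodule.mem_bot R).1 y'.2)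
    have e2 : x = 0 := Subtype.ext ((Submodule.mem_bot R).1 x.2)
    obtain ⟨z, hz⟩ := h y (by simpa using congrArg Prod.fst h2)
    exact ⟨(z, 0), 0, by ext <;> simp [hz, e1], by simp [e2]⟩
  | left f g hs _ _ ihN ihP => exact Summ.left hs ihN ihP
  | mid f g hs _ _ ihM ihP =>
    obtain ⟨i, p, hs'⟩ := ses_of_cone f
    exact Summ.left hs' (ihP.from (qi_coneTo f g hs)) (ihM.shift 1)
  | right f g hs _ _ ihM ihN => exact (ihM.cone f ihN).to (qi_coneTo f g hs)
  | @summand M N i r hr _ ih =>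
    obtain ⟨K, F, q, hF, hq⟩ := ih
    have hm : ∀ x, ((Hom.id N).sub (i.comp r)).f x ∈ LinearMap.range r.ker.incl.f := fun x =>
      ⟨⟨x - i.f (r.f x), by simp [hr]⟩, rfl⟩
    let s := Hom.lift r.ker.incl Subtype.val_injective _ hm
    have hs : ∀ x, (s.f x).1 = x - i.f (r.f x) := fun x => Hom.lift_apply r.ker.incl _ _ hm x
    let e : Hom (prod N K) (prod M (prod r.ker.mod K)) :=
      (r.comp (Hom.fst N K)).pair (s.pmap (Hom.id K))
    refine ⟨_, F, e.comp q, hF, (qi_of_bij (f := e) ⟨?_, ?_⟩).comp hq⟩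
    · rw [injective_iff_map_eq_zero]
      rintro ⟨x, y⟩ hxy
      have h1 : r.f x = 0 := congrArg Prod.fst hxy
      have h2 : s.f x = 0 := congrArg (fun z => z.2.1) hxy
      have h3 : y = 0 := congrArg (fun z => z.2.2) hxy
      have h4 := hs x
      rw [h2, h1, map_zero, sub_zero] at h4
      rw [h3, ← h4]; rfl
    · rintro ⟨x, y, z⟩
      have hy : r.f y.1 = 0 := y.2
      refine ⟨(i.f x + y.1, z), Prod.ext ?_ (Prod.ext (Subtype.ext ?_) rfl)⟩
      · change r.f (i.f x + y.1) = x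
        rw [map_add, hr, hy, add_zero]
      · change (s.f (i.f x + y.1)).1 = y.1
        rw [hs, map_add, hr, hy, add_zero]; abel

end Pool.Agent.P.MP_dd457d_ag
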