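import Mathlib

/-! Dg algebras, dg modules, perfect dg modules and their Grothendieck group. -/

namespace Pool.Agent.P.MP_dd457d_ag

universe u

/-- A dg algebra over `k`: a `ℤ`-graded `k`-algebra with a square-zero differential of degree one
satisfying the graded Leibniz rule. -/
structure DGAlg (k : Type u) [Field k] where
  A : Type u
  [ring : Ring A]
  [alg : Algebra k A]
  gr : ℤ → Submodule k A
  [graded : GradedAlgebra gr]
  d : A →ₗ[k] A
  d_mem : ∀ n, ∀ a ∈ gr n, d a ∈ gr (n + 1)
  d_d : ∀ a, d (d a) = 0
  leibniz : ∀ n, ∀ a ∈ gr n, ∀ b, d (a * b) = d a * b + n.negOnePow • (a * d b)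

attribute [instance] DGAlg.ring DGAlg.alg DGAlg.graded

variable {k : Type u} [Field k]

/-- A right dg module over `A ⊗ R`, for a commutative `k`-algebra `R` placed in degree zero:
an `R`-module with a commuting right action of `A` (`act a x = x · a`), a grading (given by the
projections `π n` onto the homogeneous components) and a differential. -/
structure DGMod (A : DGAlg k) (R : Type u) [CommRing R] [Algebra k R] where
  M : Type u
  [acg : AddCommGroup M]
  [modk : Module k M]
  [mod : Module R M]
  [tower : IsScalarTower k R M]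
  act : A.A → M →ₗ[R] M
  act_add : ∀ a b x, act (a + b) x = act a x + act b x
  act_smul : ∀ (c : k) a x, act (c • a) x = c • act a x
  act_one : ∀ x, act 1 x = x
  act_mul : ∀ a b x, act (a * b) x = act b (act a x)
  π : ℤ → M →ₗ[R] M
  π_π : ∀ m n x, π m (π n x) = if m = n then π n x else 0
  sum_π : ∀ x, ∃ s : Finset ℤ, ∑ n ∈ s, π n x = x
  π_act : ∀ n j x, ∀ a ∈ A.gr j, π (n + j) (act a x) = act a (π n x)
  d : M →ₗ[R] M
  π_d : ∀ n x, π (n + 1) (d x) = d (π n x)
  d_d : ∀ x, d (d x) = 0
  leibniz : ∀ n x a,
    d (act a (π n x)) = act a (d (π n x)) + n.negOnePow • act (A.d a) (π n x)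

attribute [instance] DGMod.acg DGMod.modk DGMod.mod DGMod.tower

variable {A : DGAlg k} {R : Type u} [CommRing R] [Algebra k R]

/-- Morphisms of dg modules. -/
structure Hom (M N : DGMod A R) where
  f : M.M →ₗ[R] N.M
  act : ∀ a x, f (M.act a x) = N.act a (f x)
  π : ∀ n x, f (M.π n x) = N.π n (f x)
  d : ∀ x, f (M.d x) = N.d (f x)

/-- Short exact sequences of dg modules. -/
def SES {M N P : DGMod A R} (f : Hom M N) (g : Hom N P) : Prop :=
  Function.Injective f.f ∧ Function.Surjective g.f ∧ Function.Exact f.f g.f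

/-- The cohomology of `M` vanishes. -/
def Acyclic (M : DGMod A R) : Prop := ∀ x, M.d x = 0 → ∃ y, M.d y = x

/-- The `k`-linear map `A → M`, `a ↦ x · a`. -/
def orb (M : DGMod A R) (x : M.M) : A.A →ₗ[k] M.M where
  toFun a := M.act a x
  map_add' a b := M.act_add a b x
  map_smul' c a := M.act_smul c a x

/-- `M` is a shift of `A ⊗ R`: it has a homogeneous cycle `x` such that
`R ⊗ A → M`, `r ⊗ a ↦ r • x · a`, is bijective. -/
def FreeOne (M : DGMod A R) : Prop :=
  ∃ (n : ℤ) (x : M.M), M.π n x = x ∧ M.d x = 0 ∧
    Function.Bijective (LinearMap.liftBaseChange R (orb M x))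

/-- Perfect dg modules, i.e. the objects of the thick subcategory of the derived category generated
by `A ⊗ R`: the least class containing the shifts of `A ⊗ R` and the acyclic modules, with the
two-out-of-three property for short exact sequences, and closed under direct summands. -/
inductive Perf : DGMod A R → Prop
  | free {M} : FreeOne M → Perf M
  | acyclic {M} : Acyclic M → Perf M
  | left {M N P} (f : Hom M N) (g : Hom N P) : SES f g → Perf N → Perf P → Perf M
  | mid {M N P} (f : Hom M N) (g : Hom N P) : SES f g → Perf M → Perf P → Perf N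
  | right {M N P} (f : Hom M N) (g : Hom N P) : SES f g → Perf M → Perf N → Perf P
  | summand {M N} (i : Hom M N) (r : Hom N M) : (∀ x, r.f (i.f x) = x) → Perf N → Perf M

/-- The relations of `K₀`: `[N] = [M] + [P]` for short exact sequences, `[M] = 0` for acyclic
`M`. -/
def rels (A : DGAlg k) : Set (FreeAbelianGroup {M : DGMod A k // Perf M}) :=
  {z | (∃ (M N P : {M : DGMod A k // Perf M}) (f : Hom M.1 N.1) (g : Hom N.1 P.1), SES f g ∧
      z = FreeAbelianGroup.of N - FreeAbelianGroup.of M - FreeAbelianGroup.of P) ∨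
    ∃ M : {M : DGMod A k // Perf M}, Acyclic M.1 ∧ z = FreeAbelianGroup.of M}

/-- The Grothendieck group `K₀(A)` of the perfect derived category of `A`. -/
abbrev K0 (A : DGAlg k) :=
  FreeAbelianGroup {M : DGMod A k // Perf M} ⧸ AddSubgroup.closure (rels A)

/-- The class in `K₀(A)` of a perfect dg module. -/
def cls (M : DGMod A k) (h : Perf M) : K0 A :=
  QuotientAddGroup.mk (FreeAbelianGroup.of ⟨M, h⟩)

/-- A dg module over `A ⊗ R` regarded as a dg module over `A`. -/
abbrev res (E : DGMod A R) : DGMod A k where
  M := E.M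
  modk := E.modk
  mod := E.modk
  act a := (E.act a).restrictScalars k
  act_add := E.act_add
  act_smul := E.act_smul
  act_one := E.act_one
  act_mul := E.act_mul
  π n := (E.π n).restrictScalars k
  π_π := E.π_π
  sum_π := E.sum_π
  π_act := E.π_act
  d := E.d.restrictScalars k
  π_d := E.π_d
  d_d := E.d_d
  leibniz := E.leibniz

/-- `M` is the fibre `E / p E` of the family `E` at the point `p`. -/
def IsFibre (E : DGMod A R) (p : Ideal R) (M : DGMod A k) : Prop :=
  ∃ g : Hom (res E) M, Function.Surjective g.f ∧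
    ∀ x : E.M, g.f x = 0 ↔ x ∈ p • (⊤ : Submodule R E.M)

end Pool.Agent.P.MP_dd457d_ag
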