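import Mathlib

/-! Degree filtrations for an operator `T`. -/

namespace Pool.Agent.P.MP_dd457d_ag

open TensorProduct

variable {k : Type*} [Field k] {M M' : Type*} [AddCommGroup M] [Module k M] [AddCommGroup M']
  [Module k M']

/-- `X` behaves like the filtration by degree in `T`. -/
structure Fil (T : M →ₗ[k] M) (X : ℕ → Submodule k M) : Prop where
  mono : ∀ j, X j ≤ X (j + 1)
  exh : ∀ y, ∃ j, y ∈ X j
  mul : ∀ j, ∀ y ∈ X j, T y ∈ X (j + 1)
  gen : ∀ j, ∀ y ∈ X (j + 1), ∃ z ∈ X j, y - T z ∈ X j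
  inj : ∀ j y, T y ∈ X (j + 1) → y ∈ X j

namespace Fil

variable {T : M →ₗ[k] M} {X : ℕ → Submodule k M} {T' : M' →ₗ[k] M'} {X' : ℕ → Submodule k M'}

theorem le (h : Fil T X) {i j : ℕ} (hij : i ≤ j) : X i ≤ X j :=
  monotone_nat_of_le_succ h.mono hij

theorem finset_le (h : Fil T X) (s : Finset M) : ∃ N, ∀ y ∈ s, y ∈ X N := by
  choose c hc using h.exh
  exact ⟨s.sup c, fun y hy => h.le (Finset.le_sup hy) (hc y)⟩

theorem bdd (h : Fil T X) (h' : Fil T' X') (φ : M →ₗ[k] M') (hφ : ∀ y, φ (T y) = T' (φ y))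
    {D : ℕ} (h0 : ∀ y ∈ X 0, φ y ∈ X' D) (j : ℕ) : ∀ y ∈ X j, φ y ∈ X' (j + D) := by
  induction j with
  | zero => simpa using h0
  | succ j ih =>
    intro y hy
    obtain ⟨z, hz, hyz⟩ := h.gen j y hy
    have e : φ y = φ (y - T z) + T' (φ z) := by rw [map_sub, hφ]; abel
    rw [e, add_right_comm]
    exact add_mem (h'.mono _ (ih _ hyz)) (h'.mul _ _ (ih _ hz))

theorem bdd_fg (h : Fil T X) (h' : Fil T' X') (φ : M →ₗ[k] M') (hφ : ∀ y, φ (T y) = T' (φ y))
    (hfg : (X 0).FG) : ∃ D, ∀ j, ∀ y ∈ X j, φ y ∈ X' (j + D) := by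
  classical
  obtain ⟨s, hs⟩ := hfg
  obtain ⟨D, hD⟩ := h'.finset_le (s.image φ)
  refine ⟨D, h.bdd h' φ hφ ?_⟩
  rw [← hs]
  exact (Submodule.span_le (p := (X' D).comap φ)).2 fun y hy =>
    hD _ (Finset.mem_image_of_mem _ hy)

theorem pow (h : Fil T X) (n j : ℕ) : ∀ y ∈ X j, (T ^ n) y ∈ X (j + n) := by
  induction n with
  | zero => simp
  | succ n ih =>
    intro y hy
    rw [pow_succ', Module.End.mul_apply]
    exact h.mul _ _ (ih y hy)

theorem inj_pow (h : Fil T X) (n j : ℕ) (y : M) (hy : (T ^ n) y ∈ X (j + n)) : y ∈ X j := by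
  induction n with
  | zero => simpa using hy
  | succ n ih =>
    rw [pow_succ', Module.End.mul_apply] at hy
    exact ih (h.inj _ _ hy)

theorem gen_pow (h : Fil T X) (n j : ℕ) :
    ∀ y ∈ X (j + n + 1), ∃ z ∈ X j, y - (T ^ (n + 1)) z ∈ X (j + n) := by
  induction n with
  | zero => simpa using h.gen j
  | succ n ih =>
    intro y hy
    obtain ⟨z1, hz1, h1⟩ := h.gen _ y hy
    obtain ⟨z, hz, h2⟩ := ih z1 hz1
    refine ⟨z, hz, ?_⟩
    have e : y - (T ^ (n + 1 + 1)) z = (y - T z1) + T (z1 - (T ^ (n + 1)) z) := by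
      rw [pow_succ' T (n + 1), Module.End.mul_apply, map_sub]; abel
    rw [e]
    exact add_mem h1 (h.mul _ _ h2)

section key
variable (h : Fil T X) {n : ℕ} {G : M →ₗ[k] M}
  (hG : ∀ j, ∀ y ∈ X j, G y - (T ^ (n + 1)) y ∈ X (j + n))
include h hG

theorem key_map (y : M) (hy : y ∈ X 0) : G y ∈ X (n + 1) := by
  have := add_mem (h.le (by omega : 0 + n ≤ n + 1) (hG 0 y hy))
    (h.le (by omega : 0 + (n + 1) ≤ n + 1) (h.pow (n + 1) 0 y hy))
  simpa using this

theorem key_inj (y : M) (hy : G y ∈ X (n + 1)) : y ∈ X 0 := by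
  obtain ⟨j, hj⟩ := h.exh y
  induction j with
  | zero => exact hj
  | succ j ih =>
    refine ih (h.inj_pow (n + 1) j y ?_)
    have := sub_mem (h.le (by omega : n + 1 ≤ j + (n + 1)) hy)
      (h.le (by omega : j + 1 + n ≤ j + (n + 1)) (hG _ y hj))
    simpa using this

theorem key_surj (y : M) : ∃ z, y - G z ∈ X (n + 1) := by
  obtain ⟨j, hj⟩ := h.exh y
  replace hj : y ∈ X (j + n + 1) := h.le (by omega) hj
  induction j generalizing y with
  | zero => exact ⟨0, by simpa using hj⟩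
  | succ j ih =>
    obtain ⟨z, hz, h1⟩ := h.gen_pow n (j + 1) y hj
    obtain ⟨w, hw⟩ := ih (y - G z) (by
      have := sub_mem h1 (hG _ z hz)
      rw [show j + 1 + n = j + n + 1 by ring] at this
      simpa using this)
    exact ⟨z + w, by rw [map_add, ← sub_sub]; exact hw⟩

end key

end Fil

section tensor

variable (B : Type*) [AddCommGroup B] [Module k B]

/-- The subspace `V ⊗ B` of `M ⊗ B`. -/
def Tn (V : Submodule k M) : Submodule k (M ⊗[k] B) := LinearMap.range (V.subtype.rTensor B)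

variable {B}

theorem tmul_mem_Tn {V : Submodule k M} {v : M} (hv : v ∈ V) (a : B) : v ⊗ₜ a ∈ Tn B V :=
  ⟨(⟨v, hv⟩ : V) ⊗ₜ a, rfl⟩

theorem Tn_le {V : Submodule k M} {U : Submodule k (M ⊗[k] B)}
    (h : ∀ v ∈ V, ∀ a, v ⊗ₜ a ∈ U) : Tn B V ≤ U := by
  rintro _ ⟨b, rfl⟩
  induction b using TensorProduct.induction_on with
  | zero => simp
  | add a b ha hb => rw [map_add]; exact add_mem ha hb
  | tmul v a => exact h _ v.2 a

theorem Tn_mono {V V' : Submodule k M} (h : V ≤ V') : Tn B V ≤ Tn B V' :=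
  Tn_le fun _ hv a => tmul_mem_Tn (h hv) a

theorem mem_Tn_iff {V : Submodule k M} (b : M ⊗[k] B) :
    b ∈ Tn B V ↔ V.mkQ.rTensor B b = 0 :=
  ((rTensor_exact B (LinearMap.exact_subtype_mkQ V) V.mkQ_surjective) b).symm

theorem Fil.tensor {T : M →ₗ[k] M} {X : ℕ → Submodule k M} (h : Fil T X) :
    Fil (T.rTensor B) (fun j => Tn B (X j)) where
  mono j := Tn_mono (h.mono j)
  exh y := by
    induction y using TensorProduct.induction_on with
    | zero => exact ⟨0, zero_mem _⟩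
    | add a b ha hb =>
      obtain ⟨i, hi⟩ := ha
      obtain ⟨j, hj⟩ := hb
      exact ⟨max i j, add_mem (Tn_mono (h.le (le_max_left _ _)) hi)
        (Tn_mono (h.le (le_max_right _ _)) hj)⟩
    | tmul v a =>
      obtain ⟨j, hj⟩ := h.exh v
      exact ⟨j, tmul_mem_Tn hj a⟩
  mul j := Tn_le (U := (Tn B (X (j + 1))).comap (T.rTensor B)) fun v hv a =>
    tmul_mem_Tn (h.mul j v hv) a
  gen j y hy := by
    have : Tn B (X (j + 1)) ≤ Tn B (X j) ⊔ (Tn B (X j)).map (T.rTensor B) := Tn_le fun v hv a => by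
      obtain ⟨z, hz, h1⟩ := h.gen j v hv
      have e : v ⊗ₜ[k] a = (v - T z) ⊗ₜ a + T.rTensor B (z ⊗ₜ a) := by
        simp [sub_tmul]
      rw [e]
      exact Submodule.add_mem_sup (tmul_mem_Tn h1 a) ⟨_, tmul_mem_Tn hz a, rfl⟩
    obtain ⟨u, hu, _, ⟨z, hz, rfl⟩, rfl⟩ := Submodule.mem_sup.1 (this hy)
    exact ⟨z, hz, by simpa using hu⟩
  inj j y hy := by
    rw [mem_Tn_iff] at hy ⊢
    let ι := (X j).mapQ (X (j + 1)) T (h.mul j)
    have hι : Function.Injective ι := by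
      rw [injective_iff_map_eq_zero]
      intro z hz
      obtain ⟨z, rfl⟩ := (X j).mkQ_surjective z
      exact (Submodule.Quotient.mk_eq_zero _).2
        (h.inj j z ((Submodule.Quotient.mk_eq_zero _).1 hz))
    apply Module.Flat.rTensor_preserves_injective_linearMap (M := B) ι hι
    rw [map_zero, ← hy, ← LinearMap.rTensor_comp_apply, ← LinearMap.rTensor_comp_apply]
    rfl

end tensor

end Pool.Agent.P.MP_dd457d_ag
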