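import Pool.Agent.P.MP_dd457d_ag.Cell
import Pool.Agent.P.MP_dd457d_ag.Fil

/-! Subquotients, finite free modules, and lattices in finite cell modules. -/

namespace Pool.Agent.P.MP_dd457d_ag

universe u

variable {k : Type u} [Field k] {A : DGAlg k} {R : Type u} [CommRing R] [Algebra k R]

open DGMod TensorProduct

section sq

variable {M N : DGMod A R}

/-- The subquotient `V / U`. -/
abbrev sq (V U : Sub M) : DGMod A R := (U.comap V.incl).quot

/-- The map induced on subquotients. -/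
def sqMap (f : Hom M N) (V U : Sub M) (V' U' : Sub N) (hV : ∀ x ∈ V.U, f.f x ∈ V'.U)
    (hU : ∀ x ∈ U.U, f.f x ∈ U'.U) : Hom (sq V U) (sq V' U') :=
  Sub.mapQ (Sub.restr f V V' hV) _ _ fun x hx => hU x.1 hx

theorem sqMap_mk (f : Hom M N) (V U : Sub M) (V' U' : Sub N) (hV : ∀ x ∈ V.U, f.f x ∈ V'.U)
    (hU : ∀ x ∈ U.U, f.f x ∈ U'.U) (x : V.U) :
    (sqMap f V U V' U' hV hU).f (Submodule.Quotient.mk x) =
      Submodule.Quotient.mk ⟨f.f x, hV _ x.2⟩ := rfl

theorem sq_zero {V U : Sub M} (x : V.U) :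
    (Submodule.Quotient.mk x : (sq V U).M) = 0 ↔ x.1 ∈ U.U :=
  Submodule.Quotient.mk_eq_zero _

theorem sq_surj {V U : Sub M} (z : (sq V U).M) : ∃ x : V.U, z = Submodule.Quotient.mk x := by
  obtain ⟨x, rfl⟩ := Submodule.mkQ_surjective _ z
  exact ⟨x, rfl⟩

theorem sqMap_inj (f : Hom M N) (V U : Sub M) (V' U' : Sub N) (hV : ∀ x ∈ V.U, f.f x ∈ V'.U)
    (hU : ∀ x ∈ U.U, f.f x ∈ U'.U) (h : ∀ x ∈ V.U, f.f x ∈ U'.U → x ∈ U.U) :
    Function.Injective (sqMap f V U V' U' hV hU).f := by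
  rw [injective_iff_map_eq_zero]
  intro z hz
  obtain ⟨x, rfl⟩ := sq_surj z
  rw [sqMap_mk, sq_zero] at hz
  exact (sq_zero x).2 (h _ x.2 hz)

theorem sqMap_surj (f : Hom M N) (V U : Sub M) (V' U' : Sub N) (hV : ∀ x ∈ V.U, f.f x ∈ V'.U)
    (hU : ∀ x ∈ U.U, f.f x ∈ U'.U) (h : ∀ y ∈ V'.U, ∃ x ∈ V.U, f.f x - y ∈ U'.U) :
    Function.Surjective (sqMap f V U V' U' hV hU).f := by
  intro z
  obtain ⟨y, rfl⟩ := sq_surj z
  obtain ⟨x, hx, hxy⟩ := h _ y.2
  refine ⟨Submodule.Quotient.mk ⟨x, hx⟩, ?_⟩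
  rw [sqMap_mk, ← sub_eq_zero, ← Submodule.Quotient.mk_sub, sq_zero]
  exact hxy

theorem ses_sq (U V W : Sub M) (hUV : U.U ≤ V.U) (hVW : V.U ≤ W.U) :
    ∃ (f : Hom (sq V U) (sq W U)) (g : Hom (sq W U) (sq W V)), SES f g := by
  refine ⟨sqMap (Hom.id M) V U W U hVW fun _ h => h, sqMap (Hom.id M) W U W V (fun _ h => h) hUV,
    sqMap_inj _ _ _ _ _ _ _ fun _ _ h => h,
    sqMap_surj _ _ _ _ _ _ _ fun y hy => ⟨y, hy, by simp⟩, fun z => ?_⟩
  obtain ⟨x, rfl⟩ := sq_surj z
  rw [sqMap_mk, sq_zero]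
  constructor
  · intro h
    exact ⟨Submodule.Quotient.mk ⟨x.1, h⟩, rfl⟩
  · rintro ⟨z, hz⟩
    obtain ⟨y, rfl⟩ := sq_surj z
    rw [sqMap_mk, ← sub_eq_zero, ← Submodule.Quotient.mk_sub, sq_zero] at hz
    have := sub_mem y.2 (hUV hz)
    simpa using this

theorem qi_sq_bot (V U : Sub M) (hU : ∀ x ∈ U.U, x = 0) :
    ∃ f : Hom V.mod (sq V U), QI f := by
  refine ⟨Sub.proj _, qi_of_bij ⟨?_, Submodule.mkQ_surjective _⟩⟩
  rw [injective_iff_map_eq_zero]
  intro x hx
  exact Subtype.ext (hU _ ((sq_zero x).1 hx))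

theorem qi_sq_top (V U : Sub M) (hV : ∀ x, x ∈ V.U) (g : Hom M N) (hg : Function.Surjective g.f)
    (hU : ∀ x, g.f x = 0 ↔ x ∈ U.U) : ∃ f : Hom (sq V U) N, QI f := by
  refine ⟨Sub.liftQ (g.comp V.incl) _ fun x hx => (hU _).2 hx, qi_of_bij ⟨?_, fun y => ?_⟩⟩
  · rw [injective_iff_map_eq_zero]
    intro z hz
    obtain ⟨x, rfl⟩ := sq_surj z
    exact (sq_zero x).2 ((hU _).1 hz)
  · obtain ⟨x, rfl⟩ := hg y
    exact ⟨Submodule.Quotient.mk ⟨x, hV x⟩, rfl⟩

theorem perf_sq_self (V U : Sub M) (h : V.U ≤ U.U) : Perf (sq V U) :=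
  Perf.acyclic fun z _ => by
    obtain ⟨x, rfl⟩ := sq_surj z
    exact ⟨0, by rw [map_zero, (sq_zero x).2 (h x.2)]⟩

end sq

section W

variable {M N : DGMod A R}

/-- The span of the elements `v • x · a` with `v ∈ V`. -/
noncomputable def W (M : DGMod A R) (x : M.M) (V : Submodule k R) : Submodule k M.M :=
  (Tn A.A V).map ((gen M x).restrictScalars k)

theorem mem_W {x : M.M} {V : Submodule k R} {v : R} (hv : v ∈ V) (a : A.A) :
    v • M.act a x ∈ W M x V := ⟨v ⊗ₜ a, tmul_mem_Tn hv a, rfl⟩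

theorem W_le {x : M.M} {V : Submodule k R} {U : Submodule k M.M}
    (h : ∀ v ∈ V, ∀ a, v • M.act a x ∈ U) : W M x V ≤ U :=
  Submodule.map_le_iff_le_comap.2 (Tn_le h)

theorem W_le' {x : M.M} {V : Submodule k R} {U : Submodule k M.M}
    (h : ∀ v ∈ V, ∀ j, ∀ a ∈ A.gr j, v • M.act a x ∈ U) : W M x V ≤ U :=
  W_le fun v hv a => by
    induction a using alg_ind with
    | h0 => rw [← orb_apply, map_zero, smul_zero]; exact zero_mem _
    | hadd a b ha hb => rw [M.act_add, smul_add]; exact add_mem ha hb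
    | hh j a ha => exact h v hv j a ha

theorem W_act {x : M.M} {V : Submodule k R} (a : A.A) : ∀ y ∈ W M x V, M.act a y ∈ W M x V :=
  W_le (U := (W M x V).comap ((M.act a).restrictScalars k)) fun v hv b => by
    change M.act a (v • M.act b x) ∈ W M x V
    rw [map_smul, ← M.act_mul]
    exact mem_W hv _

theorem W_π {x : M.M} {n : ℤ} (hx : M.π n x = x) {V : Submodule k R} (m : ℤ) :
    ∀ y ∈ W M x V, M.π m y ∈ W M x V :=
  W_le' (U := (W M x V).comap ((M.π m).restrictScalars k)) fun v hv j b hb => by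
    change M.π m (v • M.act b x) ∈ W M x V
    rw [map_smul, π_act_hom hx hb]
    split_ifs
    · exact mem_W hv _
    · simp

theorem W_d {x : M.M} {n : ℤ} (hx : M.π n x = x) {V : Submodule k R} {U : Submodule k M.M}
    (h1 : W M x V ≤ U) (h2 : W M (M.d x) V ≤ U) : ∀ y ∈ W M x V, M.d y ∈ U :=
  W_le (U := U.comap (M.d.restrictScalars k)) fun v hv b => by
    change M.d (v • M.act b x) ∈ U
    rw [map_smul, d_act_hom hx, smul_add, smul_comm v]
    refine add_mem (h2 (mem_W hv _)) ?_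
    rw [Units.smul_def]
    exact zsmul_mem (h1 (mem_W hv _)) _

/-- `W` of a homogeneous cycle is a dg submodule. -/
noncomputable def WS (M : DGMod A R) {x : M.M} {n : ℤ} (hx : M.π n x = x) (hd : M.d x = 0)
    (V : Submodule k R) : Sub (res M) :=
  { U := W M x V
    act := fun a y hy => W_act (M := M) a y hy
    π := fun m y hy => W_π (M := M) hx m y hy
    d := fun y hy => W_d (M := M) hx le_rfl (W_le fun v _ a => by simp [hd]) y hy }

theorem W_mono {x : M.M} {V V' : Submodule k R} (h : V ≤ V') : W M x V ≤ W M x V' :=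
  W_le fun _ hv a => mem_W (h hv) a

theorem perf_W_step {x : M.M} {n : ℤ} (hx : M.π n x = x) (hd : M.d x = 0)
    (hb : Function.Injective (gen M x)) (U : Submodule k R) {v : R} (hv : v ∉ U) :
    Perf (sq (WS M hx hd (U ⊔ Submodule.span k {v})) (WS M hx hd U)) := by
  have hvm : v ∈ U ⊔ Submodule.span k {v} :=
    Submodule.mem_sup_right (Submodule.mem_span_singleton_self v)
  have h1 : v • x ∈ W M x (U ⊔ Submodule.span k {v}) := by
    simpa [M.act_one] using mem_W (M := M) (x := x) hvm 1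
  let y : (sq (WS M hx hd (U ⊔ Submodule.span k {v})) (WS M hx hd U)).M :=
    Submodule.Quotient.mk ⟨v • x, h1⟩
  have hg : ∀ (c : k) (a : A.A), gen _ y (c ⊗ₜ a) =
      Submodule.Quotient.mk ⟨(c • v) • M.act a x, mem_W (Submodule.smul_mem _ c hvm) a⟩ := by
    intro c a
    rw [gen_tmul]
    refine congrArg Submodule.Quotient.mk (Subtype.ext ?_)
    change c • M.act a (v • x) = (c • v) • M.act a x
    rw [map_smul, smul_assoc]
  refine Perf.free ⟨n, y, ?_, ?_, ?_, ?_⟩
  · refine congrArg Submodule.Quotient.mk (Subtype.ext ?_)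
    change M.π n (v • x) = v • x
    rw [map_smul, hx]
  · refine (sq_zero _).2 ?_
    change M.d (v • x) ∈ W M x U
    rw [map_smul, hd, smul_zero]
    exact zero_mem _
  · change Function.Injective (gen _ y)
    rw [injective_iff_map_eq_zero]
    intro b hb0
    obtain ⟨a, rfl⟩ : ∃ a, b = (1 : k) ⊗ₜ a := ⟨TensorProduct.lid k _ b,
      ((TensorProduct.lid k A.A).symm_apply_apply b).symm⟩
    rw [hg, sq_zero] at hb0
    obtain ⟨b', hb', e⟩ := hb0
    have e' : b' = v ⊗ₜ a := hb (by rw [gen_tmul]; simpa using e)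
    obtain ⟨f, hf1, hf2⟩ := U.exists_dual_map_eq_bot_of_notMem hv inferInstance
    have hz : Tn A.A U ≤ LinearMap.ker ((TensorProduct.lid k A.A).toLinearMap.comp
        (f.rTensor A.A)) := Tn_le fun u hu a => by
      have : f u = 0 := by
        rw [← Submodule.mem_bot k, ← hf2]; exact ⟨u, hu, rfl⟩
      change f u • a = 0
      rw [this, zero_smul]
    have := hz hb'
    rw [e'] at this
    have ha : a = 0 := (smul_eq_zero_iff_right hf1).1 this
    rw [ha, tmul_zero]
  · change Function.Surjective (gen _ y)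
    intro z
    obtain ⟨⟨w, hw⟩, rfl⟩ := sq_surj z
    have : W M x (U ⊔ Submodule.span k {v}) ≤ W M x U ⊔ LinearMap.range (orb M (v • x)) :=
      W_le fun u hu a => by
        obtain ⟨u', hu', _, hc, rfl⟩ := Submodule.mem_sup.1 hu
        obtain ⟨c, rfl⟩ := Submodule.mem_span_singleton.1 hc
        rw [add_smul]
        exact Submodule.add_mem_sup (mem_W hu' a) ⟨c • a, by simp⟩
    obtain ⟨u, hu, _, ⟨a, rfl⟩, e⟩ := Submodule.mem_sup.1 (this hw)
    refine ⟨1 ⊗ₜ a, ?_⟩
    rw [hg, ← sub_eq_zero, ← Submodule.Quotient.mk_sub, sq_zero]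
    change ((1 : k) • v) • M.act a x - w ∈ W M x U
    rw [← e]
    simpa using hu

theorem perf_W {x : M.M} {n : ℤ} (hx : M.π n x = x) (hd : M.d x = 0)
    (hb : Function.Injective (gen M x)) (U : Submodule k R) (s : Finset R) :
    Perf (sq (WS M hx hd (U ⊔ Submodule.span k s)) (WS M hx hd U)) := by
  classical
  induction s using Finset.induction_on with
  | empty => exact perf_sq_self _ _ (W_mono (by simp))
  | insert v s _ ih =>
    have e : U ⊔ Submodule.span k (insert v s : Finset R) =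
        (U ⊔ Submodule.span k s) ⊔ Submodule.span k {v} := by
      rw [Finset.coe_insert, Submodule.span_insert, sup_assoc, sup_comm (Submodule.span k {v})]
    rw [e]
    obtain ⟨f, g, hs⟩ := ses_sq (WS M hx hd U) (WS M hx hd (U ⊔ Submodule.span k s))
      (WS M hx hd ((U ⊔ Submodule.span k s) ⊔ Submodule.span k {v})) (W_mono le_sup_left)
      (W_mono le_sup_left)
    refine Perf.mid f g hs ih ?_
    by_cases hv : v ∈ U ⊔ Submodule.span k s
    · exact perf_sq_self _ _ (W_mono (sup_le le_rfl (by simpa using hv)))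
    · exact perf_W_step hx hd hb _ hv

theorem perf_WS {x : M.M} {n : ℤ} (hx : M.π n x = x) (hd : M.d x = 0)
    (hb : Function.Injective (gen M x)) {V : Submodule k R} (hV : V.FG) :
    Perf (WS M hx hd V).mod := by
  obtain ⟨s, rfl⟩ := hV
  have h := perf_W hx hd hb ⊥ s
  rw [bot_sup_eq] at h
  obtain ⟨f, hf⟩ := qi_sq_bot (WS M hx hd (Submodule.span k s)) (WS M hx hd ⊥)
    (fun y hy => (Submodule.mem_bot k).1 (W_le (M := M) (U := ⊥) (by simp +contextual) hy))
  exact hf.perf_iff.2 h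

end W

/-- Multiplication by `t` as a `k`-linear map. -/
abbrev mulBy (F : DGMod A R) (t : R) : F.M →ₗ[k] F.M :=
  (t • (LinearMap.id : F.M →ₗ[R] F.M)).restrictScalars k

/-- A lattice filtration of `F` with respect to `t`. -/
structure Lat (F : DGMod A R) (t : R) (X : ℕ → Sub (res F)) : Prop where
  fil : Fil (mulBy F t) fun j => (X j).U
  perf : ∀ j, Perf (X j).mod
  fg : ∀ j, ∃ s : Finset F.M, ∀ Y : Submodule k F.M, (∀ a, ∀ y ∈ Y, F.act a y ∈ Y) →
    (∀ y ∈ s, y ∈ Y) → (X j).U ≤ Y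

theorem Cell.exists_lat {t : R} {V : ℕ → Submodule k R} (hV : Fil (LinearMap.mulLeft k t) V)
    (hfg : ∀ j, (V j).FG) {F : DGMod A R} (hF : Cell F) : ∃ X, Lat F t X := by
  classical
  induction hF with
  | @zero M h0 =>
    refine ⟨fun _ => Sub.top _, ⟨⟨by simp, by simp, by simp, fun _ _ _ => ⟨0, by simp⟩, by simp⟩,
      fun j => Perf.acyclic fun x _ => ⟨0, Subtype.ext ?_⟩, fun j => ⟨∅, fun Y _ _ y _ => ?_⟩⟩⟩
    · rw [h0 x.1]; exact h0 _
    · rw [h0 y]; exact zero_mem _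
  | @ext M N P f g hs hP _ ih =>
    obtain ⟨X, hX⟩ := ih
    obtain ⟨n, x, hx, hdx, hb⟩ := exists_gen_lift hs.2.1 hP
    obtain ⟨w, hw⟩ := (hs.2.2 _).1 hdx
    obtain ⟨D, hD⟩ := hV.bdd_fg hX.fil ((LinearMap.toSpanSingleton R M.M w).restrictScalars k)
      (fun y => by simp [mul_smul]) (hfg 0)
    have hT := hV.tensor (B := A.A)
    have hgt : ∀ (Y : DGMod A R) (y : Y.M) b,
        gen Y y ((LinearMap.mulLeft k t).rTensor A.A b) = t • gen Y y b := fun Y y b => by
      induction b using TensorProduct.induction_on with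
      | zero => simp
      | add a b ha hb => simp only [map_add, ha, hb, smul_add]
      | tmul r a => simp [mul_smul]
    let Z : ℕ → Submodule k N.M := fun j =>
      (X (j + D)).U.map (f.f.restrictScalars k) ⊔ W N x (V j)
    have memZ : ∀ j y, y ∈ Z j ↔
        ∃ z ∈ (X (j + D)).U, ∃ b ∈ Tn A.A (V j), y = f.f z + gen N x b := fun j y => by
      constructor
      · intro hy
        obtain ⟨_, ⟨z, hz, rfl⟩, _, ⟨b, hb, rfl⟩, rfl⟩ := Submodule.mem_sup.1 hy
        exact ⟨z, hz, b, hb, rfl⟩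
      · rintro ⟨z, hz, b, hb, rfl⟩
        exact Submodule.add_mem_sup ⟨z, hz, rfl⟩ ⟨b, hb, rfl⟩
    have uniq : ∀ z b z' b', f.f z + gen N x b = f.f z' + gen N x b' → z = z' ∧ b = b' := by
      intro z b z' b' h
      have h1 := congrArg g.f h
      rw [map_add, map_add, hs.2.2.apply_apply_eq_zero, hs.2.2.apply_apply_eq_zero, zero_add,
        zero_add, map_gen g.act, map_gen g.act] at h1
      have h2 := hb.1 h1
      rw [h2, add_left_inj] at h
      exact ⟨hs.1 h, h2⟩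
    have exi : ∀ y, ∃ z b, y = f.f z + gen N x b := fun y => by
      obtain ⟨b, hb⟩ := hb.2 (g.f y)
      obtain ⟨z, hz⟩ := (hs.2.2 (y - gen N x b)).1 (by rw [map_sub, map_gen g.act, hb, sub_self])
      exact ⟨z, b, by rw [hz]; abel⟩
    let ZS : ℕ → Sub (res N) := fun j =>
      { U := Z j
        act := fun a y hy => by
          obtain ⟨_, ⟨z, hz, rfl⟩, u, hu, rfl⟩ := Submodule.mem_sup.1 hy
          rw [map_add]
          exact Submodule.add_mem_sup ⟨_, (X _).act a z hz, f.act a z⟩ (W_act (M := N) a u hu)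
        π := fun m y hy => by
          obtain ⟨_, ⟨z, hz, rfl⟩, u, hu, rfl⟩ := Submodule.mem_sup.1 hy
          rw [map_add]
          exact Submodule.add_mem_sup ⟨_, (X _).π m z hz, f.π m z⟩ (W_π (M := N) hx m u hu)
        d := fun y hy => by
          obtain ⟨_, ⟨z, hz, rfl⟩, u, hu, rfl⟩ := Submodule.mem_sup.1 hy
          rw [map_add]
          refine add_mem (Submodule.mem_sup_left ⟨_, (X _).d z hz, f.d z⟩)
            (W_d (M := N) (U := Z j) hx le_sup_right (W_le fun v hv a => ?_) u hu)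
          refine Submodule.mem_sup_left ⟨M.act a (v • w), (X _).act a _ (hD j v hv), ?_⟩
          change f.f (M.act a (v • w)) = _
          rw [f.act, map_smul, map_smul, hw] }
    have hx' : P.π n (g.f x) = g.f x := by rw [← g.π, hx]
    have hd' : P.d (g.f x) = 0 := by rw [← g.d, hdx]
    refine ⟨ZS, ⟨⟨fun j y hy => ?_, fun y => ?_, fun j y hy => ?_, fun j y hy => ?_,
      fun j y hy => ?_⟩, fun j => ?_, fun j => ?_⟩⟩
    · obtain ⟨z, hz, b, hb, rfl⟩ := (memZ _ _).1 hy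
      exact (memZ _ _).2 ⟨z, hX.fil.le (by omega) hz, b, hT.mono j hb, rfl⟩
    · obtain ⟨z, b, rfl⟩ := exi y
      obtain ⟨i, hi⟩ := hX.fil.exh z
      obtain ⟨j, hj⟩ := hT.exh b
      exact ⟨i + j, (memZ _ _).2 ⟨z, hX.fil.le (by omega) hi, b, hT.le (by omega) hj, rfl⟩⟩
    · obtain ⟨z, hz, b, hb, rfl⟩ := (memZ _ _).1 hy
      refine (memZ _ _).2 ⟨t • z, hX.fil.le (by omega) (hX.fil.mul _ z hz), _, hT.mul j b hb, ?_⟩
      rw [hgt, map_smul, ← smul_add]; rfl
    · obtain ⟨z, hz, b, hb, rfl⟩ := (memZ _ _).1 hy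
      rw [add_right_comm] at hz
      obtain ⟨z', hz', h1⟩ := hX.fil.gen _ z hz
      obtain ⟨b', hb', h2⟩ := hT.gen j b hb
      refine ⟨_, (memZ _ _).2 ⟨z', hz', b', hb', rfl⟩, (memZ _ _).2 ⟨_, h1, _, h2, ?_⟩⟩
      rw [map_sub, map_sub, hgt]
      change _ - t • (_ + _) = f.f z - f.f (t • z') + _
      rw [map_smul, smul_add]; abel
    · obtain ⟨z, b, rfl⟩ := exi y
      obtain ⟨z', hz', b', hb', h⟩ := (memZ _ _).1 hy
      obtain ⟨rfl, rfl⟩ := uniq (t • z) ((LinearMap.mulLeft k t).rTensor A.A b) z' b'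
        (by rw [← h, hgt, map_smul, ← smul_add]; rfl)
      rw [add_right_comm] at hz'
      exact (memZ _ _).2 ⟨z, hX.fil.inj _ z hz', b, hT.inj j b hb', rfl⟩
    · have h1 : ∀ z ∈ (X (j + D)).U, f.res.f z ∈ (ZS j).U := fun z hz =>
        Submodule.mem_sup_left ⟨z, hz, rfl⟩
      have h2 : ∀ y ∈ (ZS j).U, g.res.f y ∈ (WS P hx' hd' (V j)).U := fun y hy => by
        obtain ⟨z, hz, b, hb, rfl⟩ := (memZ _ _).1 hy
        refine ⟨b, hb, ?_⟩
        change gen P (g.f x) b = g.f (_ + _)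
        rw [map_add, hs.2.2.apply_apply_eq_zero, zero_add, map_gen g.act]
      refine Perf.mid (Sub.restr f.res _ _ h1) (Sub.restr g.res _ _ h2)
        ⟨fun a b hab => Subtype.ext (hs.1 (congrArg Subtype.val hab)), ?_, ?_⟩ (hX.perf _)
        (perf_WS hx' hd' hb.1 (hfg j))
      · rintro ⟨_, b, hb, rfl⟩
        exact ⟨⟨gen N x b, Submodule.mem_sup_right ⟨b, hb, rfl⟩⟩,
          Subtype.ext (map_gen g.act x b)⟩
      · rintro ⟨y, hy⟩
        constructor
        · intro h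
          obtain ⟨z, hz⟩ := (hs.2.2 y).1 (congrArg Subtype.val h)
          obtain ⟨z', hz', b, hb, h'⟩ := (memZ _ _).1 hy
          obtain ⟨rfl, -⟩ := uniq z 0 z' b (by rw [← h', hz, map_zero, add_zero])
          exact ⟨⟨z, hz'⟩, Subtype.ext hz⟩
        · rintro ⟨z, hz⟩
          rw [← hz]
          exact Subtype.ext (hs.2.2.apply_apply_eq_zero z.1)
    · obtain ⟨s, hs'⟩ := hX.fg (j + D)
      obtain ⟨s', hs''⟩ := hfg j
      refine ⟨s.image f.f ∪ s'.image (· • x), fun Y hY hsY => sup_le ?_ (W_le fun v hv a => ?_)⟩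
      · refine Submodule.map_le_iff_le_comap.2 (hs' _ (fun a y hy => ?_) fun y hy =>
          hsY _ (Finset.mem_union_left _ (Finset.mem_image_of_mem _ hy)))
        change f.f (M.act a y) ∈ Y
        rw [f.act]
        exact hY a _ hy
      · rw [← map_smul]
        refine hY a _ ?_
        rw [← hs''] at hv
        exact (Submodule.span_le
          (p := Y.comap ((LinearMap.toSpanSingleton R N.M x).restrictScalars k))).2
          (fun u hu => hsY _ (Finset.mem_union_right _ (Finset.mem_image_of_mem _ hu))) hv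

end Pool.Agent.P.MP_dd457d_ag
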