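import Pool.Agent.P.MP_dd457d_ag.Modulus
import Pool.Agent.P.MP_dd457d_ag.Arith

/-! Fibres of a family over an affine curve over a finite field. -/

namespace Pool.Agent.P.MP_dd457d_ag

universe u

variable {k : Type u} [Field k] {A : DGAlg k} {R : Type u} [CommRing R] [Algebra k R]

open DGMod TensorProduct Polynomial Module

theorem exists_poly (k R : Type u) [Field k] [CommRing R] [IsDedekindDomain R] [Algebra k R]
    [Algebra.FiniteType k R] (hR : ¬ IsField R) :
    ∃ g : k[X] →ₐ[k] R, Function.Injective g ∧ g.Finite := by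
  obtain ⟨s, g, hg, hf⟩ := exists_finite_inj_algHom_of_fg k R
  have hf' : g.toRingHom.Finite := hf
  match s with
  | 0 =>
    algebraize [g.toRingHom]
    exact absurd (isField_of_isIntegral_of_isField'
      ((MvPolynomial.isEmptyAlgEquiv k (Fin 0)).toMulEquiv.isField (Field.toIsField k))) hR
  | 1 =>
    exact ⟨g.comp (MvPolynomial.uniqueAlgEquiv k (Fin 1)).symm.toAlgHom,
      hg.comp (MvPolynomial.uniqueAlgEquiv k (Fin 1)).symm.injective,
      hf.comp (AlgHom.Finite.of_surjective _ (MvPolynomial.uniqueAlgEquiv k (Fin 1)).symm.surjective)⟩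
  | s + 2 =>
    exfalso
    algebraize [g.toRingHom]
    let e : MvPolynomial (Fin (s + 2)) k →ₐ[k] k[X] :=
      MvPolynomial.aeval fun i => if i = 0 then 0 else X
    have := RingHom.ker_isPrime e
    have hk : RingHom.ker (algebraMap (MvPolynomial (Fin (s + 2)) k) R) = ⊥ :=
      (RingHom.injective_iff_ker_eq_bot _).1 hg
    obtain ⟨Q, hQ, hQ'⟩ := Ideal.exists_ideal_over_prime_of_isIntegral_of_isDomain (S := R)
      (RingHom.ker e) (hk ▸ bot_le)
    have hQ0 : Q ≠ ⊥ := by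
      rintro rfl
      have : MvPolynomial.X 0 ∈ RingHom.ker e := by simp [e, RingHom.mem_ker]
      rw [← hQ', ← RingHom.ker_eq_comap_bot, hk, Ideal.mem_bot] at this
      exact MvPolynomial.X_ne_zero _ this
    have := hQ.isMaximal hQ0
    have hm := Ideal.isMaximal_comap_of_isIntegral_of_isMaximal
      (R := MvPolynomial (Fin (s + 2)) k) Q
    rw [hQ'] at hm
    obtain ⟨y, z, hz, h⟩ := hm.exists_inv (x := MvPolynomial.X 1) (by simp [e, RingHom.mem_ker])
    have h1 := congrArg e h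
    rw [map_add, RingHom.mem_ker.1 hz, map_mul, map_one, add_zero] at h1
    have h2 : e (MvPolynomial.X 1) = X := by simp [e]
    rw [h2] at h1
    exact not_isUnit_X (IsUnit.of_mul_eq_one_right _ h1)

theorem flat_colon {M : Type u} [AddCommGroup M] [Module R M] [Module.Flat R M] {I P : Ideal R}
    {y : R} (h : ∀ r, y * r ∈ I ↔ r ∈ P) (e : M) (he : y • e ∈ I • (⊤ : Submodule R M)) :
    e ∈ P • (⊤ : Submodule R M) := by
  let m : (R ⧸ P) →ₗ[R] (R ⧸ I) := Submodule.mapQ P I (LinearMap.mulLeft R y) fun r => (h r).2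
  have hm : Function.Injective m := by
    rw [injective_iff_map_eq_zero]
    intro z hz
    obtain ⟨z, rfl⟩ := Submodule.mkQ_surjective P z
    exact (Submodule.Quotient.mk_eq_zero _).2 ((h z).1 ((Submodule.Quotient.mk_eq_zero _).1 hz))
  have h1 : (1 : R ⧸ P) ⊗ₜ[R] e = 0 := by
    apply Module.Flat.rTensor_preserves_injective_linearMap (M := M) m hm
    apply (quotTensorEquivQuotSMul M I).injective
    have : m 1 = Ideal.Quotient.mk I (y * 1) := rfl
    rw [LinearMap.rTensor_tmul, this, quotTensorEquivQuotSMul_mk_tmul, mul_one, map_zero, map_zero]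
    exact (Submodule.Quotient.mk_eq_zero _).2 he
  rw [← Submodule.Quotient.mk_eq_zero, ← quotTensorEquivQuotSMul_mk_one_tmul, h1, map_zero]

theorem map_mem_smul {M : Type u} [AddCommGroup M] [Module R M] (f : M →ₗ[R] M) (I : Ideal R)
    (x : M) (hx : x ∈ I • (⊤ : Submodule R M)) : f x ∈ I • (⊤ : Submodule R M) :=
  Submodule.smul_induction_on hx
    (fun r hr n _ => by rw [map_smul]; exact Submodule.smul_mem_smul hr trivial)
    fun x y hx hy => by rw [map_add]; exact add_mem hx hy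

/-- The submodule `I E`. -/
def IE (E : DGMod A R) (I : Ideal R) : Sub (res E) where
  U := (I • (⊤ : Submodule R E.M)).restrictScalars k
  act a := map_mem_smul (E.act a) I
  π n := map_mem_smul (E.π n) I
  d := map_mem_smul E.d I

variable {E : DGMod A R}

theorem mem_IE {I : Ideal R} {x : E.M} : x ∈ (IE E I).U ↔ x ∈ I • (⊤ : Submodule R E.M) :=
  Iff.rfl

theorem smul_mem_IE {I P : Ideal R} {y : R} (h : ∀ r ∈ P, y * r ∈ I) :
    ∀ x ∈ (IE E P).U, (mulH E y).f x ∈ (IE E I).U := fun x hx =>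
  Submodule.smul_induction_on (p := fun x : E.M => y • x ∈ I • (⊤ : Submodule R E.M))
    (mem_IE.1 hx)
    (fun r hr n _ => by rw [smul_smul]; exact Submodule.smul_mem_smul (h r hr) trivial)
    fun x y hx hy => by rw [smul_add]; exact add_mem hx hy

theorem IE_mono {I J : Ideal R} (h : I ≤ J) :
    ∀ x ∈ (IE E I).U, (Hom.id (res E)).f x ∈ (IE E J).U := fun _ hx =>
  mem_IE.2 (Submodule.smul_mono_left h (mem_IE.1 hx))

theorem mem_IE_span {y : R} {x : E.M} : x ∈ (IE E (Ideal.span {y})).U ↔ ∃ z : E.M, y • z = x := by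
  rw [mem_IE, Submodule.ideal_span_singleton_smul, Submodule.mem_smul_pointwise_iff_exists]
  simp

variable [Module.Flat R E.M]

theorem ses_IE {I P J : Ideal R} {y : R} (h : ∀ r, y * r ∈ I ↔ r ∈ P)
    (hJ : J = I ⊔ Ideal.span {y}) :
    ∃ (f : Hom (IE E P).quot (IE E I).quot) (g : Hom (IE E I).quot (IE E J).quot), SES f g := by
  refine ⟨Sub.mapQ (mulH E y) _ _ (smul_mem_IE fun r => (h r).2),
    Sub.mapQ (Hom.id _) _ _ (IE_mono (hJ ▸ le_sup_left)), ?_, fun z => ?_, fun z => ?_⟩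
  · rw [injective_iff_map_eq_zero]
    intro z hz
    obtain ⟨z, rfl⟩ := Submodule.mkQ_surjective _ z
    exact (Submodule.Quotient.mk_eq_zero _).2
      (flat_colon h z ((Submodule.Quotient.mk_eq_zero _).1 hz))
  · obtain ⟨z, rfl⟩ := Submodule.mkQ_surjective _ z
    exact ⟨Submodule.Quotient.mk z, rfl⟩
  · obtain ⟨z, rfl⟩ := Submodule.mkQ_surjective _ z
    refine (Submodule.Quotient.mk_eq_zero _).trans ⟨fun hz => ?_, ?_⟩
    · rw [mem_IE, hJ, Submodule.sup_smul] at hz
      obtain ⟨a, ha, b, hb, rfl⟩ := Submodule.mem_sup.1 hz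
      obtain ⟨c, rfl⟩ := mem_IE_span.1 hb
      exact ⟨Submodule.Quotient.mk c, ((Submodule.Quotient.eq _).2 (by
        change a + y • c - y • c ∈ _
        rwa [add_sub_cancel_right])).symm⟩
    · rintro ⟨c, hc⟩
      obtain ⟨c, rfl⟩ := Submodule.mkQ_surjective _ c
      have h1 : (mulH E y).f c - z ∈ (IE E I).U := (Submodule.Quotient.eq _).1 hc
      have h2 : (mulH E y).f c ∈ (IE E J).U :=
        IE_mono (hJ ▸ le_sup_right) _ (mem_IE_span.2 ⟨c, rfl⟩)
      have h3 : (mulH E y).f c - z ∈ (IE E J).U := IE_mono (hJ ▸ le_sup_left) _ h1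
      have := sub_mem h2 h3
      rwa [sub_sub_cancel] at this

variable [IsDedekindDomain R]

theorem ses_mul {x : R} (hx : x ≠ 0) : SES (mulH E x) (IE E (Ideal.span {x})).proj := by
  refine ⟨?_, Submodule.mkQ_surjective _, fun z =>
    (Submodule.Quotient.mk_eq_zero _).trans mem_IE_span⟩
  rw [injective_iff_map_eq_zero]
  intro z hz
  simpa using flat_colon (I := ⊥) (P := ⊥) (y := x) (by simp [hx]) z (by simpa using hz)

theorem cl_span {x : R} (hx : x ≠ 0) :
    cl (IE E (Ideal.span {x})).quot = cl (cone (mulH E x)) :=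
  (qi_coneTo _ _ (ses_mul hx)).cl_eq.symm

theorem ses_prime {p I : Ideal R} (hp : Prime p) (hI : I ≠ ⊥) :
    ∃ (f : Hom (IE E p).quot (IE E (p * I)).quot) (g : Hom (IE E (p * I)).quot (IE E I).quot),
      SES f g := by
  have hm := (Ideal.isPrime_of_prime hp).isMaximal hp.ne_zero
  have hlt : p * I < I := by
    refine lt_of_le_of_ne Ideal.mul_le_right fun h => hm.ne_top ?_
    rw [← Ideal.one_eq_top]
    exact mul_right_cancel₀ hI (h.trans (one_mul I).symm)
  obtain ⟨y, hy, hy'⟩ := SetLike.exists_of_lt hlt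
  refine ses_IE (y := y) (fun r => ⟨fun h => ?_, fun h => ?_⟩) ?_
  · by_contra hr
    obtain ⟨c, z, hz, e⟩ := hm.exists_inv hr
    refine hy' ?_
    rw [show y = c * (y * r) + z * y by linear_combination -y * e]
    exact add_mem (Ideal.mul_mem_left _ _ h) (Ideal.mul_mem_mul hz hy)
  · rw [mul_comm y]
    exact Ideal.mul_mem_mul h hy
  · obtain ⟨J, hJ⟩ : I ∣ p * I ⊔ Ideal.span {y} :=
      Ideal.dvd_iff_le.2 (sup_le hlt.le ((Ideal.span_singleton_le_iff_mem _).2 hy))
    have h1 : p ≤ J := by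
      have : I * J ∣ I * p := by rw [← hJ, mul_comm I]; exact Ideal.dvd_iff_le.2 le_sup_left
      exact Ideal.dvd_iff_le.1 ((mul_dvd_mul_iff_left hI).1 this)
    by_cases h2 : J = ⊤
    · rw [hJ, h2, Ideal.mul_top]
    · refine absurd ?_ hy'
      rw [hm.eq_of_le h2 h1, mul_comm, ← hJ]
      exact Ideal.mem_sup_right (Ideal.mem_span_singleton_self y)

variable (hE : Perf E) (hfin : ∀ I : Ideal R, I ≠ ⊥ → Module.Finite k (R ⧸ I))
include hE hfin

theorem perf_prime {p : Ideal R} (hp : Prime p) : Perf (IE E p).quot := by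
  have hm := (Ideal.isPrime_of_prime hp).isMaximal hp.ne_zero
  obtain ⟨x, hx, hx'⟩ := Ideal.exists_mem_pow_notMem_pow_succ p hp.ne_zero hm.ne_top 1
  have hx0 : x ≠ 0 := by
    rintro rfl
    exact hx' (zero_mem _)
  rw [pow_one] at hx
  obtain ⟨J, hJ⟩ := Ideal.dvd_span_singleton.2 hx
  obtain ⟨v, hv, hv'⟩ : ∃ v ∈ J, v ∉ p := by
    by_contra h
    push Not at h
    refine hx' ?_
    rw [← Ideal.span_singleton_le_iff_mem, hJ, pow_succ, pow_one]
    exact Ideal.mul_mono_right h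
  obtain ⟨c, z, hz, e⟩ := hm.exists_inv hv'
  have := hfin (Ideal.span {x}) (by simpa using hx0)
  refine Perf.summand (Sub.mapQ (mulH E (c * v)) _ (IE E (Ideal.span {x}))
      (smul_mem_IE fun r hr => ?_))
    (Sub.mapQ (Hom.id _) _ _ (IE_mono ((Ideal.span_singleton_le_iff_mem _).2 hx))) (fun w => ?_)
    ((qi_coneTo _ _ (ses_mul hx0)).perf_iff.1 (hE.cone_mul hx0))
  · rw [hJ, mul_comm (c * v)]
    exact Ideal.mul_mem_mul hr (Ideal.mul_mem_left _ _ hv)
  · obtain ⟨w, rfl⟩ := Submodule.mkQ_surjective _ w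
    refine (Submodule.Quotient.eq _).2 (mem_IE.2 ?_)
    have h : ∀ w : E.M, (c * v) • w - w ∈ p • (⊤ : Submodule R E.M) := fun w => by
      rw [eq_sub_of_add_eq e, sub_smul, one_smul, sub_sub_cancel_left]
      exact neg_mem (Submodule.smul_mem_smul hz trivial)
    exact h w

omit hE hfin [Module.Flat R E.M] [IsDedekindDomain R] in
theorem acyclic_top : Acyclic (IE E ⊤).quot := fun z _ => by
  obtain ⟨z, rfl⟩ := Submodule.mkQ_surjective _ z
  exact ⟨0, by
    rw [map_zero]
    exact ((Submodule.Quotient.mk_eq_zero _).2 (mem_IE.2 (by simp))).symm⟩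

theorem perf_IE (I : Ideal R) (hI : I ≠ ⊥) : Perf (IE E I).quot := by
  induction I using UniqueFactorizationMonoid.induction_on_prime with
  | h₁ => exact absurd rfl hI
  | h₂ I h => rw [Ideal.isUnit_iff.1 h]; exact Perf.acyclic acyclic_top
  | h₃ I p h0 hp ih =>
    obtain ⟨f, g, hs⟩ := ses_prime (E := E) hp h0
    exact Perf.mid f g hs (perf_prime hE hfin hp) (ih h0)

theorem cl_mul (I J : Ideal R) (hI : I ≠ ⊥) (hJ : J ≠ ⊥) :
    cl (IE E (I * J)).quot = cl (IE E I).quot + cl (IE E J).quot := by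
  induction I using UniqueFactorizationMonoid.induction_on_prime with
  | h₁ => exact absurd rfl hI
  | h₂ I h => rw [Ideal.isUnit_iff.1 h, cl_acyclic acyclic_top, Ideal.top_mul, zero_add]
  | h₃ I p h0 hp ih =>
    obtain ⟨f, g, hs⟩ := ses_prime (E := E) hp h0
    obtain ⟨f', g', hs'⟩ := ses_prime (E := E) hp (mul_ne_zero h0 hJ)
    rw [mul_assoc, cl_ses hs (perf_prime hE hfin hp) (perf_IE hE hfin _ h0),
      cl_ses hs' (perf_prime hE hfin hp) (perf_IE hE hfin _ (mul_ne_zero h0 hJ)), ih h0, add_assoc]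

omit hE hfin [Module.Flat R E.M] [IsDedekindDomain R] in
theorem IsFibre.qi {p : Ideal R} {M : DGMod A k} (h : IsFibre E p M) :
    ∃ f : Hom (IE E p).quot M, QI f := by
  obtain ⟨g, hg, h⟩ := h
  refine ⟨Sub.liftQ g _ fun x hx => (h x).2 hx, qi_of_bij ⟨?_, fun y => ?_⟩⟩
  · rw [injective_iff_map_eq_zero]
    intro z hz
    obtain ⟨z, rfl⟩ := Submodule.mkQ_surjective _ z
    exact (Submodule.Quotient.mk_eq_zero _).2 ((h z).1 hz)
  · obtain ⟨x, rfl⟩ := hg y
    exact ⟨Submodule.Quotient.mk x, rfl⟩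

omit hfin in
theorem fibres [Finite k] [Algebra.FiniteType k R] (hR : ¬ IsField R) (p q : Ideal R)
    [hp : p.IsMaximal] [hq : q.IsMaximal] (M N : DGMod A k) (hM : IsFibre E p M)
    (hN : IsFibre E q N) : ∃ (h₁ : Perf M) (h₂ : Perf N), ∃ n : ℕ, 0 < n ∧
      n • (finrank k (R ⧸ q) • cls M h₁ - finrank k (R ⧸ p) • cls N h₂) = 0 := by
  classical
  obtain ⟨g, hg, hf⟩ := exists_poly k R hR
  have hf' : g.toRingHom.Finite := hf
  algebraize [g.toRingHom]
  have : IsScalarTower k k[X] R := IsScalarTower.of_algebraMap_eq fun c => (g.commutes c).symm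
  have : FaithfulSMul k[X] R := (faithfulSMul_iff_algebraMap_injective _ _).2 hg
  let b := Module.Free.chooseBasis k[X] R
  have hfin : ∀ I : Ideal R, I ≠ ⊥ → Module.Finite k (R ⧸ I) := fun I hI => finite_quot b hI
  have hp0 := Ring.ne_bot_of_isMaximal_of_not_isField hp hR
  have hq0 := Ring.ne_bot_of_isMaximal_of_not_isField hq hR
  clear hf hf'
  obtain ⟨f, hf⟩ := hM.qi
  obtain ⟨f', hf'⟩ := hN.qi
  refine ⟨hf.perf_iff.1 (perf_IE hE hfin p hp0), hf'.perf_iff.1 (perf_IE hE hfin q hq0), ?_⟩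
  rw [← cl_eq, ← cl_eq, ← hf.cl_eq, ← hf'.cl_eq]
  obtain ⟨D, hD⟩ := hE.modulus (fil_VV b) (fg_VV b)
  refine torsion_of_modulus (fun I => cl (IE E I).quot) (cl_mul hE hfin) b D
    (fun s a δ hs hδ ha h1 h2 => ?_) hp0 hq0 hp.ne_top hq.ne_top
  have := hD s a δ hs hδ ha
  rw [aeval_algebraMap_apply, aeval_X_left_apply] at this
  rw [cl_span h1, cl_span h2, this]

end Pool.Agent.P.MP_dd457d_ag
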