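import Pool.Agent.P.MP_dd457d_ag.Lattice

/-! The class of the cone of multiplication by `g + δ` does not depend on small `δ`. -/

namespace Pool.Agent.P.MP_dd457d_ag

universe u

variable {k : Type u} [Field k] {A : DGAlg k} {R : Type u} [CommRing R] [Algebra k R]

open DGMod TensorProduct Polynomial

/-- Multiplication by `r` as an endomorphism of the underlying dg `A`-module. -/
abbrev mulH (E : DGMod A R) (r : R) : Hom (res E) (res E) := ((Hom.id E).smul r).res

theorem mulBy_pow (F : DGMod A R) (t : R) (n : ℕ) (y : F.M) : (mulBy F t ^ n) y = t ^ n • y := by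
  induction n with
  | zero => simp
  | succ n ih => rw [pow_succ', Module.End.mul_apply, ih, pow_succ', mul_smul]; rfl

namespace Lat

variable {F : DGMod A R} {t : R} {X : ℕ → Sub (res F)}

theorem cone_eq (h : Lat F t X) {n : ℕ} (G : Hom (res F) (res F))
    (hG : ∀ j, ∀ y ∈ (X j).U, G.f y - (mulBy F t ^ (n + 1)) y ∈ (X (j + n)).U) :
    Perf (cone G) ∧ cl (cone G) = cl (X (n + 1)).mod - cl (X 0).mod := by
  have h0 : ∀ y ∈ (X 0).U, G.f y ∈ (X (n + 1)).U := h.fil.key_map hG
  have hs := ses_cone (Sub.restr G _ _ h0) G (Sub.mapQ G _ _ h0) (fun _ => rfl) (fun _ => rfl)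
    (X 0).ses (X (n + 1)).ses
  have hb : Function.Bijective (Sub.mapQ G _ _ h0).f := by
    constructor
    · rw [injective_iff_map_eq_zero]
      intro z hz
      obtain ⟨z, rfl⟩ := Submodule.mkQ_surjective _ z
      exact (Submodule.Quotient.mk_eq_zero _).2
        (h.fil.key_inj hG z ((Submodule.Quotient.mk_eq_zero _).1 hz))
    · intro y
      obtain ⟨y, rfl⟩ := Submodule.mkQ_surjective _ y
      obtain ⟨z, hz⟩ := h.fil.key_surj hG y
      exact ⟨Submodule.Quotient.mk z, ((Submodule.Quotient.eq _).2 hz).symm⟩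
  have ha := (qi_of_bij hb).acyclic
  have hp := Perf.cone (Sub.restr G _ _ h0) (h.perf 0) (h.perf (n + 1))
  refine ⟨Perf.mid _ _ hs hp (Perf.acyclic ha), ?_⟩
  rw [cl_ses hs hp (Perf.acyclic ha), cl_acyclic ha, add_zero,
    cl_cone _ (h.perf 0) (h.perf (n + 1))]

theorem bdd_end (h : Lat F t X) (φ : F.M →ₗ[R] F.M)
    (hφ : ∀ a y, φ (F.act a y) = F.act a (φ y)) :
    ∃ D, ∀ j, ∀ y ∈ (X j).U, φ y ∈ (X (j + D)).U := by
  classical
  obtain ⟨s, hs⟩ := h.fg 0
  obtain ⟨D, hD⟩ := h.fil.finset_le (s.image φ)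
  refine ⟨D, h.fil.bdd h.fil (φ.restrictScalars k) (fun y => by simp) ?_⟩
  refine hs ((X D).U.comap (φ.restrictScalars k)) (fun a y hy => ?_)
    fun y hy => hD _ (Finset.mem_image_of_mem _ hy)
  change φ (F.act a y) ∈ (X D).U
  rw [hφ]
  exact (X D).act a _ hy

theorem bdd_smul (h : Lat F t X) {V : ℕ → Submodule k R} (hV : Fil (LinearMap.mulLeft k t) V)
    (hfg : (V 0).FG) :
    ∃ C, ∀ a, ∀ δ ∈ V a, ∀ j, ∀ y ∈ (X j).U, δ • y ∈ (X (a + (j + C))).U := by
  obtain ⟨s, hs⟩ := hfg
  choose c hc using fun ω : R => h.bdd_end (ω • LinearMap.id) (fun a y => by simp)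
  refine ⟨s.sup c, fun a δ hδ j y hy => ?_⟩
  refine hV.bdd h.fil ((LinearMap.toSpanSingleton R F.M y).restrictScalars k)
    (fun r => by simp [mul_smul]) ?_ a δ hδ
  rw [← hs]
  refine (Submodule.span_le (p := (X (j + s.sup c)).U.comap
    ((LinearMap.toSpanSingleton R F.M y).restrictScalars k))).2 fun ω hω => ?_
  exact h.fil.le (Nat.add_le_add_left (Finset.le_sup hω) j) (hc ω j y hy)

theorem aeval_mem (h : Lat F t X) (p : k[X]) (m : ℕ) (hp : p.natDegree ≤ m) (j : ℕ) (y : F.M)
    (hy : y ∈ (X j).U) : aeval t p • y ∈ (X (j + m)).U := by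
  rw [aeval_eq_sum_range' (Nat.lt_succ_of_le hp), Finset.sum_smul]
  refine Submodule.sum_mem _ fun i hi => ?_
  rw [smul_assoc, ← mulBy_pow]
  exact Submodule.smul_mem _ _
    (h.fil.le (by have := Finset.mem_range.1 hi; omega) (h.fil.pow i j y hy))

theorem monic_mem (h : Lat F t X) {p : k[X]} (hp : p.Monic) {n : ℕ} (hn : p.natDegree = n + 1)
    (j : ℕ) (y : F.M) (hy : y ∈ (X j).U) :
    aeval t p • y - (mulBy F t ^ (n + 1)) y ∈ (X (j + n)).U := by
  have e : aeval t p • y - (mulBy F t ^ (n + 1)) y = aeval t p.eraseLead • y := by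
    conv_lhs => rw [← p.eraseLead_add_C_mul_X_pow, hp.leadingCoeff, hn]
    rw [mulBy_pow]
    simp [add_smul]
  rw [e]
  exact h.aeval_mem _ n (by have := p.eraseLead_natDegree_le; omega) j y hy

end Lat

theorem Cell.modulus {t : R} {V : ℕ → Submodule k R} (hV : Fil (LinearMap.mulLeft k t) V)
    (hfg : ∀ j, (V j).FG) {F : DGMod A R} (hF : Cell F) (e : Hom F F) :
    ∃ D, ∀ (p : k[X]) (a : ℕ) (δ : R), p.Monic → δ ∈ V a → a + D ≤ p.natDegree →
      Perf (MP_dd457d_ag.cone (((Hom.id F).smul (aeval t p)).add (e.smul δ)).res) ∧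
      cl (MP_dd457d_ag.cone (((Hom.id F).smul (aeval t p)).add (e.smul δ)).res) =
        cl (MP_dd457d_ag.cone (mulH F (aeval t p))) := by
  obtain ⟨X, hX⟩ := hF.exists_lat hV hfg
  obtain ⟨D, hD⟩ := hX.bdd_end e.f e.act
  obtain ⟨C, hC⟩ := hX.bdd_smul hV (hfg 0)
  refine ⟨D + C + 1, fun p a δ hp hδ hn => ?_⟩
  obtain ⟨n, hn'⟩ : ∃ n, p.natDegree = n + 1 := ⟨p.natDegree - 1, by omega⟩
  have h1 := hX.cone_eq (n := n) (mulH F (aeval t p)) fun j y hy => hX.monic_mem hp hn' j y hy
  have h2 := hX.cone_eq (n := n) (((Hom.id F).smul (aeval t p)).add (e.smul δ)).res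
    fun j y hy => by
      change aeval t p • y + δ • e.f y - _ ∈ _
      rw [add_sub_right_comm]
      exact add_mem (hX.monic_mem hp hn' j y hy)
        (hX.fil.le (by omega) (hC a δ hδ _ _ (hD j y hy)))
  exact ⟨h2.1, h2.2.trans h1.2.symm⟩

theorem Perf.modulus {t : R} {V : ℕ → Submodule k R} (hV : Fil (LinearMap.mulLeft k t) V)
    (hfg : ∀ j, (V j).FG) {E : DGMod A R} (hE : Perf E) :
    ∃ D, ∀ (p : k[X]) (a : ℕ) (δ : R), p.Monic → δ ∈ V a → a + D ≤ p.natDegree →
      cl (MP_dd457d_ag.cone (mulH E (aeval t p + δ))) =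
        cl (MP_dd457d_ag.cone (mulH E (aeval t p))) := by
  obtain ⟨K, F, q, hF, hq⟩ := hE.summ
  let i : Hom E (prod E K) := Hom.inl _ _ _ _ _
  let s : Hom (prod E K) K := Hom.snd _ _ _ _ _
  have his : SES i s := ses_tw _ _ _ _ _
  obtain ⟨ψ, h, hG, hh⟩ := hF.lift hq ((i.comp (Hom.fst E K)).comp q)
  obtain ⟨D, hD⟩ := hF.modulus hV hfg ψ
  have key : ∀ (p : k[X]) (a : ℕ) (δ : R), p.Monic → δ ∈ V a → a + D ≤ p.natDegree →
      cl (MP_dd457d_ag.cone (mulH E (aeval t p + δ))) +
        cl (MP_dd457d_ag.cone (mulH K (aeval t p))) =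
        cl (MP_dd457d_ag.cone (mulH F (aeval t p))) := by
    intro p a δ hp hδ hn
    obtain ⟨h1, h2⟩ := hD p a δ hp hδ hn
    let G := (((Hom.id E).smul (aeval t p + δ)).pmap ((Hom.id K).smul (aeval t p))).res
    have h3 := qi_coneMap (((Hom.id F).smul (aeval t p)).add (ψ.smul δ)).res G q.res q.res
      ((δ • h).restrictScalars k)
      ⟨fun b z => by
        change δ • h (F.act b z) = (prod E K).act b (δ • h z)
        rw [hG.act, map_smul],
      fun m z => by
        change δ • h (F.π m z) = (prod E K).π (m + -1) (δ • h z)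
        rw [hG.π, map_smul]⟩
      (fun z => by
        change q.f (aeval t p • z + δ • ψ.f z) - G.f (q.f z) =
          (prod E K).d (δ • h z) + δ • h (F.d z)
        rw [map_smul, ← smul_add, ← hh z, map_add, map_smul, map_smul]
        ext <;> simp [G, i, add_smul, smul_sub]) hq.res hq.res
    have h4 := h3.perf_iff.1 h1
    have hs := ses_cone (mulH E (aeval t p + δ)) G (mulH K (aeval t p)) (u := i.res) (v := i.res)
      (u' := s.res) (v' := s.res) (fun z => by ext <;> simp [G, i]) (fun z => by simp [G, s])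
      his.res his.res
    have h5 : Perf (MP_dd457d_ag.cone (mulH E (aeval t p + δ))) :=
      Perf.summand (coneMap0 _ G i.res i.res (fun z => by ext <;> simp [G, i]))
        (coneMap0 G _ (Hom.fst E K).res (Hom.fst E K).res (fun z => by simp [G]))
        (fun z => by ext <;> simp [i]) h4
    rw [← h2, h3.cl_eq, cl_ses hs h5 (Perf.right _ _ hs h5 h4)]
  refine ⟨D, fun p a δ hp hδ hn => ?_⟩
  have h1 := key p a δ hp hδ hn
  have h2 := key p a 0 hp (zero_mem _) hn
  rw [add_zero, ← h1] at h2
  exact (add_right_cancel h2).symm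

theorem Perf.cone_mul [IsDomain R] {x : R} (hx0 : x ≠ 0)
    [Module.Finite k (R ⧸ Ideal.span {x})] {E : DGMod A R} (hE : Perf E) :
    Perf (MP_dd457d_ag.cone (mulH E x)) := by
  classical
  induction hE with
  | @free M h =>
    obtain ⟨n, y, hy, hd, hb⟩ := h
    change Function.Bijective (gen M y) at hb
    let U : Submodule k R := (Ideal.span {x}).restrictScalars k
    obtain ⟨s, hs⟩ : ∃ s : Finset R, U ⊔ Submodule.span k s = ⊤ := by
      obtain ⟨s, hs⟩ := Module.Finite.fg_top (R := k) (M := R ⧸ Ideal.span {x})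
      let m := (Ideal.Quotient.mkₐ k (Ideal.span {x})).toLinearMap
      have hm : Function.Surjective m := Ideal.Quotient.mk_surjective
      choose c hc using hm
      refine ⟨s.image c, eq_top_iff.2 fun r _ => ?_⟩
      have : (⊤ : Submodule k (R ⧸ Ideal.span {x})) ≤
          (Submodule.span k (s.image c : Set R)).map m := by
        rw [← hs]
        exact Submodule.span_le.2 fun z hz =>
          ⟨c z, Submodule.subset_span (Finset.mem_image_of_mem c hz), hc z⟩
      obtain ⟨r', hr', e⟩ := this (Submodule.mem_top (x := m r))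
      rw [← sub_add_cancel r r']
      refine Submodule.add_mem_sup ?_ (by simpa using hr')
      exact (Ideal.Quotient.eq.1 e.symm)
    have h1 := perf_W hy hd hb.1 U s
    rw [hs] at h1
    have hs' : SES (mulH M x) (WS M hy hd U).proj := by
      refine ⟨?_, Submodule.mkQ_surjective _, fun z => ?_⟩
      · rw [injective_iff_map_eq_zero]
        intro z hz
        obtain ⟨b, rfl⟩ := hb.2 z
        change x • gen M y b = 0 at hz
        rw [← map_smul, ← map_zero (gen M y)] at hz
        have h2 : (LinearMap.mulLeft k x).rTensor A.A b = x • b := by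
          clear hz
          induction b using TensorProduct.induction_on with
          | zero => simp
          | add a b ha hb => rw [map_add, smul_add, ha, hb]
          | tmul r a => rfl
        have h3 := Module.Flat.rTensor_preserves_injective_linearMap (M := A.A)
          (LinearMap.mulLeft k x) (mul_right_injective₀ hx0)
        have : b = 0 := h3 (by rw [h2, hb.1 hz, map_zero])
        rw [this, map_zero]
      · refine (Submodule.Quotient.mk_eq_zero _).trans ⟨fun hz => ?_, ?_⟩
        · refine W_le (M := M) (U := LinearMap.range (mulH M x).f) (fun v hv a => ?_) hz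
          obtain ⟨c, rfl⟩ := Ideal.mem_span_singleton'.1 hv
          exact ⟨c • M.act a y, by rw [mul_comm, mul_smul]; rfl⟩
        · rintro ⟨z, rfl⟩
          obtain ⟨b, rfl⟩ := hb.2 z
          change x • gen M y b ∈ W M y U
          induction b using TensorProduct.induction_on with
          | zero => simp
          | add a b ha hb => rw [map_add, smul_add]; exact add_mem ha hb
          | tmul r a =>
            rw [gen_tmul, smul_smul]
            exact mem_W (Ideal.mem_span_singleton'.2 ⟨r, mul_comm _ _⟩) a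
    obtain ⟨f, hf⟩ := qi_sq_top (WS M hy hd ⊤) (WS M hy hd U) (fun z => by
      obtain ⟨b, rfl⟩ := hb.2 z
      refine ⟨b, ?_, rfl⟩
      induction b using TensorProduct.induction_on with
      | zero => exact zero_mem _
      | add a b ha hb => exact add_mem ha hb
      | tmul r a => exact tmul_mem_Tn Submodule.mem_top a) (WS M hy hd U).proj hs'.2.1
      fun z => Submodule.Quotient.mk_eq_zero _
    exact (qi_coneTo _ _ hs').perf_iff.2 (hf.perf_iff.1 h1)
  | @acyclic M h => exact Perf.cone _ (Perf.acyclic h) (Perf.acyclic h)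
  | left f g hs _ _ ih1 ih2 =>
    exact Perf.left _ _ (ses_cone (mulH _ x) (mulH _ x) (mulH _ x) (fun z => (f.f.map_smul x z))
      (fun z => (g.f.map_smul x z)) hs.res hs.res) ih1 ih2
  | mid f g hs _ _ ih1 ih2 =>
    exact Perf.mid _ _ (ses_cone (mulH _ x) (mulH _ x) (mulH _ x) (fun z => (f.f.map_smul x z))
      (fun z => (g.f.map_smul x z)) hs.res hs.res) ih1 ih2
  | right f g hs _ _ ih1 ih2 =>
    exact Perf.right _ _ (ses_cone (mulH _ x) (mulH _ x) (mulH _ x) (fun z => (f.f.map_smul x z))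
      (fun z => (g.f.map_smul x z)) hs.res hs.res) ih1 ih2
  | summand i r hr _ ih =>
    exact Perf.summand (coneMap0 (mulH _ x) (mulH _ x) i.res i.res fun z => i.f.map_smul x z)
      (coneMap0 (mulH _ x) (mulH _ x) r.res r.res fun z => r.f.map_smul x z)
      (fun z => by ext <;> simp [hr]) ih

end Pool.Agent.P.MP_dd457d_ag
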