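import Pool.Agent.P.MP_dd457d_ag.Basic

/-! Quasi-isomorphisms, cones of squares, classes in `K₀`. -/

namespace Pool.Agent.P.MP_dd457d_ag

universe u

variable {k : Type u} [Field k] {A : DGAlg k} {R : Type u} [CommRing R] [Algebra k R]

open DGMod

variable {L M N P : DGMod A R}

/-- Quasi-isomorphisms, in the form that the cone is acyclic. -/
def QI (f : Hom M N) : Prop :=
  ∀ (y : N.M) (x : M.M), M.d x = 0 → N.d y + f.f x = 0 →
    ∃ (y' : N.M) (x' : M.M), N.d y' + f.f x' = y ∧ - M.d x' = x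

theorem cone_d (f : Hom M N) (z : N.M × M.M) :
    (cone f).d z = (N.d z.1 + f.f z.2, - M.d z.2) := by
  ext <;> simp

theorem QI.acyclic {f : Hom M N} (h : QI f) : Acyclic (cone f) := by
  rintro ⟨y, x⟩ hz
  rw [cone_d, Prod.mk_eq_zero, neg_eq_zero] at hz
  obtain ⟨y', x', h1, h2⟩ := h y x hz.2 hz.1
  exact ⟨(y', x'), by rw [cone_d, h1, h2]⟩

theorem qi_iff (f : Hom M N) : QI f ↔
    (∀ y, N.d y = 0 → ∃ x z, M.d x = 0 ∧ f.f x = y + N.d z) ∧
    (∀ x z, M.d x = 0 → f.f x = N.d z → ∃ w, x = M.d w) := by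
  constructor
  · intro h
    refine ⟨fun y hy => ?_, fun x z hx hz => ?_⟩
    · obtain ⟨y', x', h1, h2⟩ := h y 0 (by simp) (by simpa using hy)
      exact ⟨x', -y', by simpa using h2, by rw [← h1]; simp⟩
    · obtain ⟨y', x', h1, h2⟩ := h (-z) x hx (by simp [hz])
      exact ⟨-x', by simp [h2]⟩
  · rintro ⟨h1, h2⟩ y x hx hy
    obtain ⟨w, hw⟩ := h2 x (-y) hx (by rw [map_neg]; exact eq_neg_of_add_eq_zero_right hy)
    obtain ⟨x0, z, hx0, hz⟩ := h1 (y + f.f w) (by rw [map_add, ← f.d, ← hw, hy])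
    refine ⟨-z, x0 - w, ?_, ?_⟩
    · rw [map_sub, hz, map_neg]; abel
    · rw [map_sub, hx0, ← hw]; abel

theorem qi_of_bij {f : Hom M N} (h : Function.Bijective f.f) : QI f := by
  rw [qi_iff]
  refine ⟨fun y hy => ?_, fun x z hx hz => ?_⟩
  · obtain ⟨x, rfl⟩ := h.2 y
    exact ⟨x, 0, h.1 (by rw [f.d, hy, map_zero]), by simp⟩
  · obtain ⟨w, rfl⟩ := h.2 z
    exact ⟨w, h.1 (by rw [f.d, hz])⟩

theorem QI.comp {g : Hom N P} {f : Hom M N} (hg : QI g) (hf : QI f) : QI (g.comp f) := by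
  rw [qi_iff] at *
  refine ⟨fun y hy => ?_, fun x z hx hz => ?_⟩
  · obtain ⟨x, z, hx, hz⟩ := hg.1 y hy
    obtain ⟨x', z', hx', hz'⟩ := hf.1 x hx
    exact ⟨x', z + g.f z', hx', by simp [hz', hz, g.d, add_assoc]⟩
  · obtain ⟨w, hw⟩ := hg.2 (f.f x) z (by rw [← f.d, hx, map_zero]) hz
    exact hf.2 x w hx hw

/-- If `g f` is homotopic to a quasi-isomorphism and `g` is one, so is `f`. -/
theorem QI.of_comp {g : Hom N P} {f : Hom M N} {q : Hom M P} (hg : QI g) (hq : QI q)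
    (h : M.M →ₗ[R] P.M) (hh : ∀ z, g.f (f.f z) - q.f z = P.d (h z) + h (M.d z)) : QI f := by
  rw [qi_iff] at *
  refine ⟨fun y hy => ?_, fun x z hx hz => ?_⟩
  · obtain ⟨x, z, hx, hz⟩ := hq.1 (g.f y) (by rw [← g.d, hy, map_zero])
    have h1 := hh x
    rw [hx, map_zero, add_zero, hz] at h1
    obtain ⟨w, hw⟩ := hg.2 (f.f x - y) (z + h x) (by rw [map_sub, ← f.d, hx, hy]; simp)
      (by rw [map_sub, map_add, ← h1]; abel)
    exact ⟨x, w, hx, by rw [← hw]; abel⟩
  · refine hq.2 x (g.f z - h x) hx ?_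
    have h1 := hh x
    rw [hx, map_zero, add_zero, hz, g.d] at h1
    rw [map_sub, ← h1]; abel

theorem QI.pmap {M' N' : DGMod A R} {f : Hom M N} {g : Hom M' N'} (hf : QI f) (hg : QI g) :
    QI (f.pmap g) := by
  rintro ⟨y, y'⟩ ⟨x, x'⟩ hx hy
  simp only [LinearMap.prod_apply, LinearMap.add_apply, LinearMap.comp_apply, LinearMap.fst_apply,
    LinearMap.snd_apply, LinearMap.zero_apply, add_zero, Function.prod, Prod.mk_eq_zero, Hom.pmap_f,
    LinearMap.prodMap_apply, Prod.mk_add_mk] at hx hy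
  obtain ⟨a, b, h1, h2⟩ := hf y x hx.1 hy.1
  obtain ⟨a', b', h1', h2'⟩ := hg y' x' hx.2 hy.2
  exact ⟨(a, a'), (b, b'), by ext <;> simp [h1, h1'], by ext <;> simp [h2, h2']⟩

theorem QI.shift {f : Hom M N} (hf : QI f) (j : ℤ) : QI (f.shift j) := by
  rw [qi_iff] at *
  refine ⟨fun y hy => ?_, fun x z hx hz => ?_⟩
  · obtain ⟨x, z, hx, hz⟩ := hf.1 y ((smul_eq_zero_iff_eq j.negOnePow).1 hy)
    refine ⟨x, j.negOnePow • z, by simp [hx], ?_⟩
    change f.f x = y + j.negOnePow • N.d (j.negOnePow • z)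
    rw [map_sg, smul_smul, Int.units_mul_self, one_smul, hz]
  · obtain ⟨w, hw⟩ := hf.2 x (j.negOnePow • z) ((smul_eq_zero_iff_eq j.negOnePow).1 hx)
      (by rw [map_sg]; exact hz)
    refine ⟨j.negOnePow • w, ?_⟩
    change x = j.negOnePow • M.d (j.negOnePow • w)
    rw [map_sg, smul_smul, Int.units_mul_self, one_smul, hw]

theorem QI.res {f : Hom M N} (hf : QI f) : QI f.res := hf

/-- The map of cones induced by a homotopy commutative square. -/
@[simps] def coneMap {X Y X' Y' : DGMod A R} (f : Hom X Y) (f' : Hom X' Y') (u : Hom X X')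
    (v : Hom Y Y') (h : X.M →ₗ[R] Y'.M) (hG : IsG h (-1))
    (hh : ∀ z, v.f (f.f z) - f'.f (u.f z) = Y'.d (h z) + h (X.d z)) :
    Hom (cone f) (cone f') where
  f := ((v.f.comp (LinearMap.fst R _ _)) + h.comp (LinearMap.snd R _ _)).prod
    (u.f.comp (LinearMap.snd R _ _))
  act a z := by simp [v.act, u.act, hG.act]
  π n z := by simp [v.π, u.π, hG.π]
  d z := by
    rw [cone_d, cone_d]
    ext
    · have := hh z.2
      simp only [LinearMap.prod_apply, LinearMap.add_apply, LinearMap.comp_apply,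
        LinearMap.fst_apply, LinearMap.snd_apply, Function.prod, map_add, map_neg, v.d]
      rw [← sub_eq_zero] at this ⊢
      rw [← this]; abel
    · simp [u.d]

theorem qi_coneMap {X Y X' Y' : DGMod A R} (f : Hom X Y) (f' : Hom X' Y') (u : Hom X X')
    (v : Hom Y Y') (h : X.M →ₗ[R] Y'.M) (hG : IsG h (-1))
    (hh : ∀ z, v.f (f.f z) - f'.f (u.f z) = Y'.d (h z) + h (X.d z)) (hu : QI u) (hv : QI v) :
    QI (coneMap f f' u v h hG hh) := by
  rintro ⟨y', x'⟩ ⟨y, x⟩ h1 h2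
  rw [cone_d, Prod.mk_eq_zero, neg_eq_zero] at h1
  rw [cone_d] at h2
  simp only [coneMap_f, LinearMap.prod_apply, LinearMap.add_apply, LinearMap.comp_apply,
    LinearMap.fst_apply, LinearMap.snd_apply, Function.prod, Prod.mk_add_mk, Prod.mk_eq_zero] at h2
  obtain ⟨a', a, ha1, ha2⟩ := hu (-x') x h1.2 (by rw [map_neg]; exact h2.2)
  have e1 : X.d a = -x := by rw [← ha2, neg_neg]
  have e2 : X'.d a' = -x' - u.f a := by rw [← ha1]; abel
  have e3 := hh a
  obtain ⟨b', b, hb1, hb2⟩ := hv (y' - f'.f a' + h a) (y - f.f a)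
    (by rw [map_sub, ← f.d, e1, map_neg, sub_neg_eq_add]; exact h1.1)
    (by
      rw [e1, map_neg] at e3
      have e4 : Y'.d (h a) = v.f (f.f a) - f'.f (u.f a) + h x := by rw [e3]; abel
      rw [map_add, map_sub, ← f'.d, e2, e4, map_sub, map_sub, map_neg, ← h2.1]; abel)
  refine ⟨(b', a'), (b, -a), ?_, ?_⟩
  · rw [cone_d]
    ext
    · simp only [coneMap_f, LinearMap.prod_apply, LinearMap.add_apply, LinearMap.comp_apply,
        LinearMap.fst_apply, LinearMap.snd_apply, Function.prod, Prod.mk_add_mk, map_neg]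
      rw [← sub_eq_zero] at hb1 ⊢
      rw [← hb1]; abel
    · simp [e2]
  · rw [cone_d]
    ext
    · simp only [map_neg, Prod.neg_mk]
      rw [← sub_eq_zero] at hb2 ⊢
      rw [← hb2]; abel
    · simp [e1]

/-- The map of cones induced by a commutative square. -/
abbrev coneMap0 {X Y X' Y' : DGMod A R} (f : Hom X Y) (f' : Hom X' Y') (u : Hom X X')
    (v : Hom Y Y') (hh : ∀ z, v.f (f.f z) = f'.f (u.f z)) : Hom (cone f) (cone f') :=
  coneMap f f' u v 0 ⟨by simp, by simp⟩ (by simp [hh])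

theorem ses_cone {X Y X' Y' X'' Y'' : DGMod A R} (f : Hom X Y) (f' : Hom X' Y')
    (f'' : Hom X'' Y'') {u : Hom X X'} {v : Hom Y Y'} {u' : Hom X' X''} {v' : Hom Y' Y''}
    (hh : ∀ z, v.f (f.f z) = f'.f (u.f z)) (hh' : ∀ z, v'.f (f'.f z) = f''.f (u'.f z))
    (hu : SES u u') (hv : SES v v') :
    SES (coneMap0 f f' u v hh) (coneMap0 f' f'' u' v' hh') := by
  refine ⟨?_, ?_, ?_⟩
  · rintro ⟨a, b⟩ ⟨a', b'⟩ h
    simp only [coneMap_f, LinearMap.prod_apply, LinearMap.add_apply, LinearMap.comp_apply,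
      LinearMap.fst_apply, LinearMap.snd_apply, Function.prod, LinearMap.zero_apply, add_zero,
      Prod.mk.injEq] at h
    rw [hv.1 h.1, hu.1 h.2]
  · rintro ⟨a, b⟩
    obtain ⟨a, rfl⟩ := hv.2.1 a
    obtain ⟨b, rfl⟩ := hu.2.1 b
    exact ⟨(a, b), by simp⟩
  · rintro ⟨a, b⟩
    simp only [coneMap_f, LinearMap.prod_apply, LinearMap.add_apply, LinearMap.comp_apply,
      LinearMap.fst_apply, LinearMap.snd_apply, Function.prod, LinearMap.zero_apply, add_zero,
      Prod.mk_eq_zero, hv.2.2 a, hu.2.2 b]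
    constructor
    · rintro ⟨⟨a, rfl⟩, ⟨b, rfl⟩⟩
      exact ⟨(a, b), by simp⟩
    · rintro ⟨⟨a', b'⟩, h⟩
      simp only [LinearMap.prod_apply, LinearMap.add_apply, LinearMap.comp_apply,
        LinearMap.fst_apply, LinearMap.snd_apply, Function.prod, LinearMap.zero_apply, add_zero,
        Prod.mk.injEq] at h
      exact ⟨⟨a', h.1⟩, ⟨b', h.2⟩⟩

theorem ses_of_cone (f : Hom M N) : ∃ (i : Hom N (cone f)) (p : Hom (cone f) (M.shift 1)),
    SES i p := ⟨_, _, ses_tw _ _ _ _ _⟩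

theorem acyclic_cone_id (M : DGMod A R) : Acyclic (cone (Hom.id M)) :=
  (qi_of_bij (f := Hom.id M) Function.bijective_id).acyclic

theorem Perf.shift_one (h : Perf M) : Perf (M.shift 1) := by
  obtain ⟨i, p, hs⟩ := ses_of_cone (Hom.id M)
  exact Perf.right i p hs h (Perf.acyclic (acyclic_cone_id M))

theorem Perf.of_shift_one (h : Perf (M.shift 1)) : Perf M := by
  obtain ⟨i, p, hs⟩ := ses_of_cone (Hom.id M)
  exact Perf.left i p hs (Perf.acyclic (acyclic_cone_id M)) h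

theorem QI.perf_iff {f : Hom M N} (hf : QI f) : Perf M ↔ Perf N := by
  obtain ⟨i, p, hs⟩ := ses_of_cone f
  exact ⟨fun h => Perf.left i p hs (Perf.acyclic hf.acyclic) h.shift_one,
    fun h => (Perf.right i p hs h (Perf.acyclic hf.acyclic)).of_shift_one⟩

theorem Perf.cone (f : Hom M N) (hM : Perf M) (hN : Perf N) : Perf (cone f) := by
  obtain ⟨i, p, hs⟩ := ses_of_cone f
  exact Perf.mid i p hs hN hM.shift_one

/-- For a short exact sequence, the cone of the first map is the third term. -/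
@[simps] def coneTo (f : Hom M N) (g : Hom N P) (h : SES f g) : Hom (cone f) P where
  f := g.f.comp (LinearMap.fst R _ _)
  act a z := by simp [g.act]
  π n z := by simp [g.π]
  d z := by rw [cone_d]; simp [g.d, h.2.2.apply_apply_eq_zero]

theorem qi_coneTo (f : Hom M N) (g : Hom N P) (h : SES f g) : QI (coneTo f g h) := by
  rintro y ⟨a, b⟩ h1 h2
  rw [cone_d, Prod.mk_eq_zero, neg_eq_zero] at h1
  obtain ⟨y, rfl⟩ := h.2.1 y
  obtain ⟨c, hc⟩ := (h.2.2 (N.d y + a)).1 (by rw [map_add, g.d]; exact h2)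
  refine ⟨0, (y, -c), by simp, ?_⟩
  rw [cone_d]
  ext
  · simp [hc]
  · apply h.1
    have : f.f b = - N.d a := eq_neg_of_add_eq_zero_right h1.1
    simp [f.d, hc, N.d_d, this]

/-- For a short exact sequence, the cone of the second map is the shifted first term. -/
@[simps] def toCone (f : Hom M N) (g : Hom N P) (h : SES f g) : Hom (M.shift 1) (cone g) where
  f := (LinearMap.inr R _ _).comp f.f
  act a z := by simp [f.act]
  π n z := by simp [f.π]
  d z := by rw [cone_d]; simp [f.d, h.2.2.apply_apply_eq_zero]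

theorem qi_toCone (f : Hom M N) (g : Hom N P) (h : SES f g) : QI (toCone f g h) := by
  rintro ⟨a, b⟩ x h1 h2
  rw [cone_d] at h2
  simp only [toCone_f, LinearMap.comp_apply, LinearMap.inr_apply, Prod.mk_add_mk, add_zero,
    Prod.mk_eq_zero] at h2
  obtain ⟨a, rfl⟩ := h.2.1 a
  obtain ⟨c, hc⟩ := (h.2.2 (N.d a + b)).1 (by rw [map_add, g.d]; exact h2.1)
  refine ⟨(0, a), c, ?_, ?_⟩
  · rw [cone_d]
    ext <;> simp [hc]
  · apply h.1
    have : f.f x = N.d b := by rw [← sub_eq_zero, ← h2.2]; abel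
    simp [f.d, hc, N.d_d, this]

section K0

variable {M N P : DGMod A k}

open Classical in
/-- The class of a dg module (zero if it is not perfect). -/
noncomputable def cl (M : DGMod A k) : K0 A := if h : Perf M then cls M h else 0

theorem cl_eq (h : Perf M) : cl M = cls M h := dif_pos h

theorem cl_ses {f : Hom M N} {g : Hom N P} (h : SES f g) (hM : Perf M) (hP : Perf P) :
    cl N = cl M + cl P := by
  have hN := Perf.mid f g h hM hP
  rw [cl_eq hM, cl_eq hN, cl_eq hP, ← sub_eq_zero, ← sub_sub]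
  have : (QuotientAddGroup.mk (FreeAbelianGroup.of ⟨N, hN⟩ - FreeAbelianGroup.of ⟨M, hM⟩ -
      FreeAbelianGroup.of ⟨P, hP⟩) : K0 A) = 0 :=
    (QuotientAddGroup.eq_zero_iff _).2 (AddSubgroup.subset_closure
      (Or.inl ⟨⟨M, hM⟩, ⟨N, hN⟩, ⟨P, hP⟩, f, g, h, rfl⟩))
  exact this

theorem cl_acyclic (h : Acyclic M) : cl M = 0 := by
  rw [cl_eq (Perf.acyclic h)]
  exact (QuotientAddGroup.eq_zero_iff _).2 (AddSubgroup.subset_closure (Or.inr ⟨_, h, rfl⟩))

theorem cl_shift (h : Perf M) : cl (M.shift 1) = - cl M := by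
  obtain ⟨i, p, hs⟩ := ses_of_cone (Hom.id M)
  have := cl_ses hs h h.shift_one
  rw [cl_acyclic (acyclic_cone_id M)] at this
  exact eq_neg_of_add_eq_zero_right this.symm

theorem cl_cone (f : Hom M N) (hM : Perf M) (hN : Perf N) : cl (cone f) = cl N - cl M := by
  obtain ⟨i, p, hs⟩ := ses_of_cone f
  rw [cl_ses hs hN hM.shift_one, cl_shift hM, sub_eq_add_neg]

theorem QI.cl_eq {f : Hom M N} (hf : QI f) : cl M = cl N := by
  by_cases hM : Perf M
  · have := cl_cone f hM (hf.perf_iff.1 hM)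
    rw [cl_acyclic hf.acyclic] at this
    exact (sub_eq_zero.1 this.symm).symm
  · rw [cl, cl, dif_neg hM, dif_neg fun h => hM (hf.perf_iff.2 h)]

end K0

end Pool.Agent.P.MP_dd457d_ag
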